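import Pool.Agent.Helper75.DR.Smooth

/-!
# Summing the smoothed maps over all scales
-/

set_option autoImplicit false

open Finset Real MeasureTheory

namespace Pool.Agent.Helper75.DR

variable {X : Type*} [Fintype X] [MetricSpace X]
variable {E : Type*} [NormedAddCommGroup E] [NormedSpace ℝ E]

/-- the small radius of band `b` -/
noncomputable def rad (δ Φ : ℝ) (b : ℕ) : ℝ := δ * Φ ^ b / (16 * Φ)

lemma rad_succ {δ Φ : ℝ} (hΦ : 0 < Φ) (b : ℕ) : rad δ Φ (b + 1) = δ * Φ ^ b / 16 := by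
  unfold rad
  rw [pow_succ]
  field_simp

lemma rad_succ' {δ Φ : ℝ} (hΦ : 0 < Φ) (b : ℕ) : rad δ Φ (b + 1) = Φ * rad δ Φ b := by
  unfold rad
  rw [pow_succ]
  field_simp

lemma rad_pos {δ Φ : ℝ} (hδ : 0 < δ) (hΦ : 0 < Φ) (b : ℕ) : 0 < rad δ Φ b := by
  unfold rad
  positivity

lemma rad_lt {δ Φ : ℝ} (hδ : 0 < δ) (hΦ : 1 < Φ) (b : ℕ) : rad δ Φ b < rad δ Φ (b + 1) := by
  rw [rad_succ' (by linarith)]
  have := rad_pos hδ (by linarith : (0 : ℝ) < Φ) b
  nlinarith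

lemma rad_mono {δ Φ : ℝ} (hδ : 0 < δ) (hΦ : 1 < Φ) : Monotone (rad δ Φ) :=
  monotone_nat_of_le_succ fun b => (rad_lt hδ hΦ b).le

lemma log_rad {δ Φ : ℝ} (hδ : 0 < δ) (hΦ : 0 < Φ) (b : ℕ) :
    log (rad δ Φ (b + 1) / rad δ Φ b) = log Φ := by
  rw [rad_succ' hΦ, mul_div_assoc, div_self (rad_pos hδ hΦ b).ne', mul_one]

/-- the smoothed band maps -/
noncomputable def theta (δ Φ : ℝ) (g : ℕ → X → E) (b : ℕ) : X → E :=
  smooth (g b) (rad δ Φ b) (rad δ Φ (b + 1))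

lemma sum_tele (e : ℕ → ℝ) (m : ℕ) :
    ∑ i ∈ range m, (e (i + 2) - e i) = e (m + 1) + e m - e 1 - e 0 := by
  induction m with
  | zero => simp
  | succ m ih => rw [sum_range_succ, ih]; ring

lemma sum_geom_le {δ Φ : ℝ} (hδ : 0 < δ) (hΦ : 2 ≤ Φ) (j : ℕ) :
    ∑ b ∈ range j, 2 * (δ * Φ ^ (b + 1)) ≤ 4 * (δ * Φ ^ j) := by
  induction j with
  | zero => simp; linarith
  | succ j ih =>
    rw [sum_range_succ]
    have h1 : 0 < δ * Φ ^ j := by positivity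
    have h2 : δ * Φ ^ (j + 1) = Φ * (δ * Φ ^ j) := by ring
    rw [h2]
    nlinarith

/-- Upper bound for the sum over all scales. -/
theorem sum_theta_le {δ Φ : ℝ} (hδ : 0 < δ) (hΦ : 64 ≤ Φ) (g : ℕ → X → E)
    (h1 : ∀ b z z', ‖g b z - g b z'‖ ≤ dist z z' + rad δ Φ b)
    (h2 : ∀ b z z', ‖g b z - g b z'‖ ≤ δ * Φ ^ (b + 1) + rad δ Φ b)
    {x y : X} (hxy : x ≠ y) {b0 : ℕ} (hb0 : δ * Φ ^ b0 ≤ dist x y)
    (hb0' : dist x y < δ * Φ ^ (b0 + 1)) (m : ℕ) :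
    ∑ b ∈ range m, ‖theta δ Φ g b x - theta δ Φ g b y‖ ≤
      (16 + 150 * (log (Fintype.card X) / log Φ)) * dist x y := by
  have hΦ0 : 0 < Φ := by linarith
  have hΦ1 : 1 < Φ := by linarith
  have hl : 0 < log Φ := log_pos hΦ1
  have ht : 0 < dist x y := dist_pos.2 hxy
  have hlip : ∀ b, ‖theta δ Φ g b x - theta δ Φ g b y‖ ≤
      30 * dist x y / log Φ * (lb x (rad δ Φ (b + 1) + dist x y) - lb x (rad δ Φ b - dist x y)) +
        (if rad δ Φ b < dist x y then 4 * dist x y else 0) := by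
    intro b
    have := smooth_lip (g b) (rad_pos hδ hΦ0 b) (rad_lt hδ hΦ1 b) (le_refl (rad δ Φ b))
      (h1 b) hxy
    rwa [log_rad hδ hΦ0] at this
  have hcrude : ∀ b, ‖theta δ Φ g b x - theta δ Φ g b y‖ ≤ 2 * (δ * Φ ^ (b + 1)) := by
    intro b
    refine (smooth_sub_le (g b) (rad_pos hδ hΦ0 b) (rad_lt hδ hΦ1 b) (h2 b) x y).trans ?_
    have : rad δ Φ b ≤ δ * Φ ^ (b + 1) := by
      refine (rad_lt hδ hΦ1 b).le.trans ?_
      rw [rad_succ hΦ0]
      have h3 : 0 < δ * Φ ^ b := by positivity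
      have h4 : δ * Φ ^ (b + 1) = Φ * (δ * Φ ^ b) := by ring
      rw [h4]
      nlinarith
    linarith
  have hsub : ∑ b ∈ range m, ‖theta δ Φ g b x - theta δ Φ g b y‖ ≤
      ∑ b ∈ range (b0 + (3 + m)), ‖theta δ Φ g b x - theta δ Φ g b y‖ :=
    sum_le_sum_of_subset_of_nonneg (range_subset_range.2 (by omega)) fun _ _ _ => norm_nonneg _
  refine hsub.trans ?_
  rw [sum_range_add _ b0, sum_range_add _ 3]
  have p1 : ∑ b ∈ range b0, ‖theta δ Φ g b x - theta δ Φ g b y‖ ≤ 4 * dist x y := by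
    refine (sum_le_sum fun b _ => hcrude b).trans ((sum_geom_le hδ (by linarith) b0).trans ?_)
    linarith
  have hc0 : 0 ≤ 30 * dist x y / log Φ := by positivity
  have p2 : ∑ b ∈ range 3, ‖theta δ Φ g (b0 + b) x - theta δ Φ g (b0 + b) y‖ ≤
      3 * (30 * dist x y / log Φ * log (Fintype.card X) + 4 * dist x y) := by
    have : ∀ b ∈ range 3, ‖theta δ Φ g (b0 + b) x - theta δ Φ g (b0 + b) y‖ ≤
        30 * dist x y / log Φ * log (Fintype.card X) + 4 * dist x y := by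
      intro b _
      refine (hlip (b0 + b)).trans (add_le_add ?_ ?_)
      · refine mul_le_mul_of_nonneg_left ?_ hc0
        linarith [lb_le x (rad δ Φ (b0 + b + 1) + dist x y),
          lb_nonneg x (rad δ Φ (b0 + b) - dist x y)]
      · split_ifs
        · exact le_rfl
        · positivity
    refine (sum_le_sum this).trans (le_of_eq ?_)
    rw [sum_const, card_range, nsmul_eq_mul]
    norm_num
  have hrad : ∀ i : ℕ, 2 * dist x y ≤ rad δ Φ (b0 + (3 + i)) := by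
    intro i
    have h3 : rad δ Φ (b0 + 3) ≤ rad δ Φ (b0 + (3 + i)) := rad_mono hδ hΦ1 (by omega)
    have h4 : rad δ Φ (b0 + 3) = Φ / 16 * (δ * Φ ^ (b0 + 1)) := by
      rw [rad_succ hΦ0]; ring
    nlinarith
  have p3 : ∑ b ∈ range m, ‖theta δ Φ g (b0 + (3 + b)) x - theta δ Φ g (b0 + (3 + b)) y‖ ≤
      30 * dist x y / log Φ * (2 * log (Fintype.card X)) := by
    have : ∀ b ∈ range m, ‖theta δ Φ g (b0 + (3 + b)) x - theta δ Φ g (b0 + (3 + b)) y‖ ≤
        30 * dist x y / log Φ * ((fun i => lb x (rad δ Φ (b0 + (3 + i)) - dist x y)) (b + 2) -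
          (fun i => lb x (rad δ Φ (b0 + (3 + i)) - dist x y)) b) := by
      intro b _
      have h3 := hlip (b0 + (3 + b))
      have h4 := hrad b
      rw [if_neg (by linarith), add_zero] at h3
      refine h3.trans (mul_le_mul_of_nonneg_left ?_ hc0)
      refine sub_le_sub_right ?_ _
      apply lb_mono x
      have h5 : b0 + (3 + (b + 2)) = b0 + (3 + b) + 1 + 1 := by omega
      rw [h5, rad_succ' hΦ0 (b0 + (3 + b) + 1)]
      have h6 := rad_lt hδ hΦ1 (b0 + (3 + b))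
      nlinarith
    refine (sum_le_sum this).trans ?_
    rw [← mul_sum]
    refine mul_le_mul_of_nonneg_left ((le_of_eq (sum_tele
      (fun i => lb x (rad δ Φ (b0 + (3 + i)) - dist x y)) m)).trans ?_) hc0
    linarith [lb_le x (rad δ Φ (b0 + (3 + (m + 1))) - dist x y),
      lb_le x (rad δ Φ (b0 + (3 + m)) - dist x y),
      lb_nonneg x (rad δ Φ (b0 + (3 + 1)) - dist x y),
      lb_nonneg x (rad δ Φ (b0 + (3 + 0)) - dist x y)]
  have e : (16 + 150 * (log (Fintype.card X) / log Φ)) * dist x y =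
      4 * dist x y + (3 * (30 * dist x y / log Φ * log (Fintype.card X) + 4 * dist x y) +
        30 * dist x y / log Φ * (2 * log (Fintype.card X))) := by
    field_simp
    ring
  rw [e]
  linarith

/-- Lower bound at the right scale. -/
theorem le_theta [CompleteSpace E] {δ Φ : ℝ} (hδ : 0 < δ) (hΦ : 64 ≤ Φ) (g : ℕ → X → E)
    (h1 : ∀ b z z', ‖g b z - g b z'‖ ≤ dist z z' + rad δ Φ b)
    (h3 : ∀ b z z', dist z z' ≤ δ * Φ ^ (b + 1) →
      dist z z' / 2 - rad δ Φ b ≤ ‖g b z - g b z'‖)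
    {x y : X} {b0 : ℕ} (hb0 : δ * Φ ^ b0 ≤ dist x y)
    (hb0' : dist x y < δ * Φ ^ (b0 + 1)) :
    dist x y / 4 ≤ ‖theta δ Φ g b0 x - theta δ Φ g b0 y‖ := by
  have hΦ0 : 0 < Φ := by linarith
  have hΦ1 : 1 < Φ := by linarith
  have hx := smooth_sub_self_le (g b0) (rad_pos hδ hΦ0 b0) (rad_lt hδ hΦ1 b0) (h1 b0) x
  have hy := smooth_sub_self_le (g b0) (rad_pos hδ hΦ0 b0) (rad_lt hδ hΦ1 b0) (h1 b0) y
  have hg := h3 b0 x y hb0'.le
  have h4 : ‖g b0 x - g b0 y‖ ≤ ‖theta δ Φ g b0 x - theta δ Φ g b0 y‖ +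
      ‖theta δ Φ g b0 x - g b0 x‖ + ‖theta δ Φ g b0 y - g b0 y‖ := by
    have h5 : g b0 x - g b0 y = (theta δ Φ g b0 x - theta δ Φ g b0 y) -
      (theta δ Φ g b0 x - g b0 x) + (theta δ Φ g b0 y - g b0 y) := by abel
    rw [h5]
    exact (norm_add_le _ _).trans (add_le_add_left (norm_sub_le _ _) _)
  have h6 : rad δ Φ (b0 + 1) ≤ dist x y / 16 := by
    rw [rad_succ hΦ0]; linarith
  have h7 : rad δ Φ b0 ≤ rad δ Φ (b0 + 1) / 64 := by
    rw [rad_succ' hΦ0]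
    have := rad_pos hδ hΦ0 b0
    nlinarith
  have h8 := rad_pos hδ hΦ0 b0
  unfold theta at h4 ⊢
  linarith

end Pool.Agent.Helper75.DR
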