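import Pool.Agent.Helper75.DR.Kernel
import Pool.Agent.Helper75.DR.Bands

/-!
# Dimension reduction for a finite cut metric
-/

set_option autoImplicit false

open Finset Real MeasureTheory

namespace Pool.Agent.Helper75.DR

/-- sign of a boolean -/
def sg (b : Bool) : ℝ := if b = true then 1 else -1

lemma abs_sg (b : Bool) : |sg b| = 1 := by
  cases b <;> simp [sg]

lemma sg_not (b : Bool) : sg (!b) = - sg b := by
  cases b <;> simp [sg]

/-- averaging over signs keeps a single term -/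
lemma signs {E : Type*} [NormedAddCommGroup E] [NormedSpace ℝ E] {m : ℕ} (u : Fin m → E)
    (b0 : Fin m) : ‖u b0‖ ≤ ∑ σ : Fin m → Bool, ((2 : ℝ) ^ m)⁻¹ * ‖∑ b, sg (σ b) • u b‖ := by
  set e : (Fin m → Bool) ≃ (Fin m → Bool) :=
    Function.Involutive.toPerm (fun σ b => if b = b0 then σ b else !(σ b)) (by
      intro σ
      funext b
      by_cases h : b = b0 <;> simp [h]) with he
  have h1 : ∑ σ : Fin m → Bool, ‖∑ b, sg (σ b) • u b‖ =
      ∑ σ : Fin m → Bool, ‖∑ b, sg (e σ b) • u b‖ := (Equiv.sum_comp e _).symm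
  have h2 : ∀ σ : Fin m → Bool, 2 * ‖u b0‖ ≤
      ‖∑ b, sg (σ b) • u b‖ + ‖∑ b, sg (e σ b) • u b‖ := by
    intro σ
    refine le_trans (le_of_eq ?_) (norm_add_le _ _)
    rw [← sum_add_distrib]
    have h3 : ∑ b, (sg (σ b) • u b + sg (e σ b) • u b) = (2 * sg (σ b0)) • u b0 := by
      rw [sum_eq_single b0]
      · have : e σ b0 = σ b0 := by simp [he, Function.Involutive.toPerm]
        rw [this, ← add_smul]
        congr 1
        ring
      · intro b _ hb
        have : e σ b = !(σ b) := by simp [he, Function.Involutive.toPerm, hb]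
        rw [this, sg_not, neg_smul, add_neg_cancel]
      · intro h; exact absurd (mem_univ _) h
    rw [h3, norm_smul, norm_mul, Real.norm_eq_abs, Real.norm_eq_abs, abs_sg]
    norm_num
  have h4 : ∑ _σ : Fin m → Bool, 2 * ‖u b0‖ ≤
      ∑ σ : Fin m → Bool, ‖∑ b, sg (σ b) • u b‖ +
        ∑ σ : Fin m → Bool, ‖∑ b, sg (e σ b) • u b‖ := by
    rw [← sum_add_distrib]
    exact sum_le_sum fun σ _ => h2 σ
  rw [← h1, sum_const, card_univ, Fintype.card_fun, Fintype.card_bool, Fintype.card_fin,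
    nsmul_eq_mul] at h4
  push_cast at h4
  rw [← mul_sum, ← div_eq_inv_mul, le_div_iff₀ (by positivity)]
  linarith

variable {X : Type*} [Fintype X] [DecidableEq X] [MetricSpace X]

omit [DecidableEq X] in
lemma exists_min_dist : ∃ δ : ℝ, 0 < δ ∧ ∀ x y : X, x ≠ y → δ ≤ dist x y := by
  classical
  by_cases h : ((univ : Finset (X × X)).filter fun p => p.1 ≠ p.2).Nonempty
  · obtain ⟨p, hp, hmin⟩ := exists_min_image _ (fun p : X × X => dist p.1 p.2) h
    refine ⟨dist p.1 p.2, dist_pos.2 (by simpa using hp), fun x y hxy => ?_⟩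
    exact hmin (x, y) (by simpa using hxy)
  · refine ⟨1, one_pos, fun x y hxy => ?_⟩
    exact absurd ⟨(x, y), by simpa using hxy⟩ h

omit [DecidableEq X] in
lemma exists_bands {δ Φ : ℝ} (hδ : 0 < δ) (hΦ : 1 < Φ) :
    ∃ m : ℕ, ∀ x y : X, dist x y < δ * Φ ^ m := by
  have h : ∀ p : X × X, dist p.1 p.2 ≤ ∑ q : X × X, dist q.1 q.2 := fun p =>
    single_le_sum (f := fun q : X × X => dist q.1 q.2) (fun q _ => dist_nonneg) (mem_univ p)
  obtain ⟨m, hm⟩ := pow_unbounded_of_one_lt ((∑ q : X × X, dist q.1 q.2) / δ) hΦ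
  refine ⟨m, fun x y => (h (x, y)).trans_lt ?_⟩
  rwa [div_lt_iff₀ hδ, mul_comm] at hm

/-- Dimension reduction for finite cut metrics. -/
theorem core (w : Finset X → ℝ) (hw : ∀ S, 0 ≤ w S) (hdist : ∀ x y : X, dist x y = cutDist w x y)
    (hn : 2 ≤ Fintype.card X)
    {Φ Λ : ℝ} (hΦ : 64 ≤ Φ) (hΛ : 16 + 150 * (log (Fintype.card X) / log Φ) ≤ Λ)
    {k A : ℕ} (hk0 : 0 < k) (hA0 : 0 < A)
    (hk : 2048 * Φ ^ 4 * log (2 * (Fintype.card X : ℝ) ^ 2) ≤ k)
    (hA : 128 * Λ ^ 2 * log (2 * (Fintype.card X : ℝ) ^ 2) ≤ A) :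
    ∃ F : X → Fin (A * k) → ℝ, ∀ x y,
      dist x y / 8 ≤ ∑ i, |F x i - F y i| ∧ ∑ i, |F x i - F y i| ≤ Λ * dist x y := by
  have hΦ0 : 0 < Φ := by linarith
  have hΦ1 : 1 < Φ := by linarith
  have hl : 0 < log Φ := log_pos hΦ1
  have hnR : (2 : ℝ) ≤ Fintype.card X := by exact_mod_cast hn
  have hlogn : 0 < log (Fintype.card X) := log_pos (by linarith)
  have hΛ0 : 0 < Λ := lt_of_lt_of_le (by positivity) hΛ
  obtain ⟨δ, hδ, hmin⟩ := exists_min_dist (X := X)
  obtain ⟨m, hm⟩ := exists_bands (X := X) hδ hΦ1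
  have hε : (0 : ℝ) < 1 / (32 * Φ ^ 2) := by positivity
  have hk' : 2 * log (2 * (Fintype.card X : ℝ) ^ 2) / (1 / (32 * Φ ^ 2)) ^ 2 ≤ k := by
    refine le_trans (le_of_eq ?_) hk
    field_simp
    ring
  have hsnap : ∀ b : ℕ, ∃ g : X → Fin k → ℝ, ∀ x y,
      ∑ i, |g x i - g y i| ≤ dist x y + rad δ Φ b ∧
      ∑ i, |g x i - g y i| ≤ δ * Φ ^ (b + 1) + rad δ Φ b ∧
      (dist x y ≤ δ * Φ ^ (b + 1) → dist x y / 2 - rad δ Φ b ≤ ∑ i, |g x i - g y i|) := by
    intro b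
    have hT : 0 < δ * Φ ^ (b + 1) := by positivity
    obtain ⟨g, hg⟩ := snapshot w hw hT hε hk0 hk'
    refine ⟨g, fun x y => ?_⟩
    have h := hg x y
    rw [← hdist] at h
    have e : 2 * (δ * Φ ^ (b + 1)) * (1 / (32 * Φ ^ 2)) = rad δ Φ b := by
      unfold rad
      field_simp
      ring
    rw [e] at h
    exact h
  choose g0 hg0 using hsnap
  let g : ℕ → X → PiLp 1 (fun _ : Fin k => ℝ) := fun b x => WithLp.toLp 1 (g0 b x)
  have hnorm : ∀ b x y, ‖g b x - g b y‖ = ∑ i, |g0 b x i - g0 b y i| := by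
    intro b x y
    rw [PiLp.norm_eq_of_L1]
    rfl
  have h1 : ∀ b z z', ‖g b z - g b z'‖ ≤ dist z z' + rad δ Φ b := fun b z z' => by
    rw [hnorm]; exact (hg0 b z z').1
  have h2 : ∀ b z z', ‖g b z - g b z'‖ ≤ δ * Φ ^ (b + 1) + rad δ Φ b := fun b z z' => by
    rw [hnorm]; exact (hg0 b z z').2.1
  have h3 : ∀ b z z', dist z z' ≤ δ * Φ ^ (b + 1) →
      dist z z' / 2 - rad δ Φ b ≤ ‖g b z - g b z'‖ := fun b z z' => by
    rw [hnorm]; exact (hg0 b z z').2.2
  -- the scale of a pair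
  have hscale : ∀ x y : X, x ≠ y → ∃ b0 : ℕ, δ * Φ ^ b0 ≤ dist x y ∧
      dist x y < δ * Φ ^ (b0 + 1) := by
    intro x y hxy
    obtain ⟨b0, hb, hb'⟩ := exists_nat_pow_near ((one_le_div hδ).2 (hmin x y hxy)) hΦ1
    refine ⟨b0, ?_, ?_⟩
    · rwa [le_div_iff₀ hδ, mul_comm] at hb
    · rwa [div_lt_iff₀ hδ, mul_comm] at hb'
  have hup : ∀ x y : X, x ≠ y → ∑ b : Fin m, ‖theta δ Φ g b x - theta δ Φ g b y‖ ≤
      Λ * dist x y := by
    intro x y hxy
    obtain ⟨b0, hb, hb'⟩ := hscale x y hxy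
    have := sum_theta_le hδ hΦ g h1 h2 hxy hb hb' m
    rw [sum_range] at this
    exact this.trans (mul_le_mul_of_nonneg_right hΛ dist_nonneg)
  have hlo : ∀ x y : X, x ≠ y → ∃ b0 : Fin m, dist x y / 4 ≤
      ‖theta δ Φ g b0 x - theta δ Φ g b0 y‖ := by
    intro x y hxy
    obtain ⟨b0, hb, hb'⟩ := hscale x y hxy
    have hb0m : b0 < m := by
      have : Φ ^ b0 < Φ ^ m := by
        have := hb.trans_lt (hm x y)
        exact lt_of_mul_lt_mul_left this hδ.le
      exact (pow_lt_pow_iff_right₀ hΦ1).1 this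
    exact ⟨⟨b0, hb0m⟩, le_theta hδ hΦ g h1 h3 hb hb'⟩
  -- signs
  set u : X → X → Fin m → PiLp 1 (fun _ : Fin k => ℝ) := fun x y b =>
    theta δ Φ g b x - theta δ Φ g b y with hu
  have hv : ∀ (σ : Fin m → Bool) (e : X × X),
      0 ≤ ‖∑ b, sg (σ b) • u e.1 e.2 b‖ / (Λ * dist e.1 e.2) ∧
      ‖∑ b, sg (σ b) • u e.1 e.2 b‖ / (Λ * dist e.1 e.2) ≤ 1 := by
    intro σ e
    refine ⟨by positivity, ?_⟩
    by_cases hxy : e.1 = e.2
    · rw [hxy, dist_self]; simp
    · have ht : 0 < dist e.1 e.2 := dist_pos.2 hxy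
      rw [div_le_one (by positivity)]
      refine (norm_sum_le _ _).trans (le_trans (le_of_eq ?_) (hup e.1 e.2 hxy))
      refine sum_congr rfl fun b _ => ?_
      rw [norm_smul, Real.norm_eq_abs, abs_sg, one_mul]
  obtain ⟨s, hs⟩ := sampling (J := Fin m → Bool) (I := X × X) (fun _ => ((2 : ℝ) ^ m)⁻¹)
    (fun _ => by positivity) (by
      rw [sum_const, card_univ, Fintype.card_fun, Fintype.card_bool, Fintype.card_fin,
        nsmul_eq_mul]
      push_cast
      exact mul_inv_cancel₀ (by positivity))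
    (fun σ e => ‖∑ b, sg (σ b) • u e.1 e.2 b‖ / (Λ * dist e.1 e.2)) hv
    (ε := 1 / (8 * Λ)) (by positivity) hA0 (by
      rw [Fintype.card_prod]
      push_cast
      rw [← sq]
      refine le_trans (le_of_eq ?_) hA
      field_simp
      ring)
  have hAR : (0 : ℝ) < A := by exact_mod_cast hA0
  let F0 : X → Fin A × Fin k → ℝ := fun x p =>
    (A : ℝ)⁻¹ * (∑ b, sg (s p.1 b) • theta δ Φ g b x) p.2
  have hF : ∀ x y, ∑ p, |F0 x p - F0 y p| =
      (A : ℝ)⁻¹ * ∑ j, ‖∑ b, sg (s j b) • u x y b‖ := by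
    intro x y
    rw [Fintype.sum_prod_type, mul_sum]
    refine sum_congr rfl fun j _ => ?_
    rw [PiLp.norm_eq_of_L1, mul_sum]
    refine sum_congr rfl fun i _ => ?_
    simp only [F0]
    rw [← mul_sub, abs_mul, abs_of_pos (inv_pos.2 hAR), Real.norm_eq_abs]
    congr 2
    rw [← PiLp.sub_apply, ← sum_sub_distrib]
    simp only [hu, smul_sub]
  refine ⟨fun x i => F0 x (finProdFinEquiv.symm i), fun x y => ?_⟩
  have hF' : ∑ i, |F0 x (finProdFinEquiv.symm i) - F0 y (finProdFinEquiv.symm i)| =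
      ∑ p, |F0 x p - F0 y p| :=
    Equiv.sum_comp finProdFinEquiv.symm (fun p => |F0 x p - F0 y p|)
  rw [hF', hF]
  by_cases hxy : x = y
  · subst hxy
    simp [hu]
  have ht : 0 < dist x y := dist_pos.2 hxy
  have h := abs_le.1 (hs (x, y))
  simp only at h
  rw [← sum_div] at h
  have hmean : 1 / (4 * Λ) ≤ ∑ σ : Fin m → Bool, ((2 : ℝ) ^ m)⁻¹ *
      (‖∑ b, sg (σ b) • u x y b‖ / (Λ * dist x y)) := by
    obtain ⟨b0, hb0⟩ := hlo x y hxy
    have h5 := signs (u x y) b0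
    simp_rw [← mul_div_assoc]
    rw [← sum_div, le_div_iff₀ (by positivity)]
    refine le_trans ?_ (hb0.trans h5)
    apply le_of_eq
    field_simp
  have hsum : ∑ j, ‖∑ b, sg (s j b) • u x y b‖ ≤ A * (Λ * dist x y) := by
    have : ∀ j ∈ (univ : Finset (Fin A)), ‖∑ b, sg (s j b) • u x y b‖ ≤ Λ * dist x y := by
      intro j _
      have := (hv (s j) (x, y)).2
      rwa [div_le_one (by positivity)] at this
    refine (sum_le_sum this).trans (le_of_eq ?_)
    rw [sum_const, card_univ, Fintype.card_fin, nsmul_eq_mul]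
  constructor
  · have h6 : 1 / (8 * Λ) ≤ (∑ j, ‖∑ b, sg (s j b) • u x y b‖) / (Λ * dist x y) / A := by
      have e8 : 1 / (4 * Λ) = 1 / (8 * Λ) + 1 / (8 * Λ) := by field_simp; norm_num
      linarith [h.1]
    rw [div_div, le_div_iff₀ (by positivity)] at h6
    rw [← div_eq_inv_mul, le_div_iff₀ hAR]
    refine le_trans (le_of_eq ?_) h6
    field_simp
  · rw [← div_eq_inv_mul, div_le_iff₀ hAR]
    linarith

end Pool.Agent.Helper75.DR
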