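import Pool.Agent.Helper75.DR.Kernel

/-!
# Finite subsets of `ℓ₁` are cut metrics
-/

set_option autoImplicit false

open Finset Real MeasureTheory

namespace Pool.Agent.Helper75.DR

variable {X : Type*} [Fintype X] [DecidableEq X]

omit [Fintype X] in
lemma sep_comm (S : Finset X) (x y : X) : sep S x y = sep S y x := by
  unfold sep
  by_cases hx : x ∈ S <;> by_cases hy : y ∈ S <;> simp [hx, hy]

/-- the parameters cutting out `S` -/
def cutSet (z : X → ℝ) (S : Finset X) : Set ℝ := {θ | ∀ x, x ∈ S ↔ θ < z x}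

lemma cutSet_measurable (z : X → ℝ) (S : Finset X) : MeasurableSet (cutSet z S) := by
  have : cutSet z S = ⋂ x, {θ | x ∈ S ↔ θ < z x} := by
    ext θ; simp [cutSet]
  rw [this]
  refine MeasurableSet.iInter fun x => ?_
  by_cases hx : x ∈ S
  · simp only [hx, true_iff]
    exact measurableSet_Iio
  · simp only [hx, false_iff, not_lt]
    exact measurableSet_Ici

omit [Fintype X] [DecidableEq X] in
lemma cutSet_disjoint (z : X → ℝ) {S S' : Finset X} (h : S ≠ S') :
    Disjoint (cutSet z S) (cutSet z S') := by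
  rw [Set.disjoint_left]
  intro θ h1 h2
  apply h
  ext x
  rw [h1 x, h2 x]

omit [Fintype X] [DecidableEq X] in
lemma cutSet_subset (z : X → ℝ) {S : Finset X} {x y : X} (hx : x ∈ S) (hy : y ∉ S) :
    cutSet z S ⊆ Set.Ico (z y) (z x) := by
  intro θ h
  have h1 := (h x).1 hx
  have h2 : ¬ θ < z y := fun h3 => hy ((h y).2 h3)
  exact ⟨not_lt.1 h2, h1⟩

/-- one coordinate as a combination of cuts -/
lemma cut_one (z : X → ℝ) (x y : X) :
    |z x - z y| = ∑ S, volume.real (cutSet z S) * sep S x y := by
  wlog hxy : z y ≤ z x with H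
  · rw [abs_sub_comm, H z y x (le_of_not_ge hxy)]
    exact sum_congr rfl fun S _ => by rw [sep_comm]
  have h1 : ∀ S, volume.real (cutSet z S) * sep S x y =
      if x ∈ S ∧ y ∉ S then volume.real (cutSet z S) else 0 := by
    intro S
    by_cases hx : x ∈ S <;> by_cases hy : y ∈ S
    · simp [sep, hx, hy]
    · simp [sep, hx, hy]
    · have h2 : cutSet z S = ∅ := by
        have := cutSet_subset z hy hx
        rw [Set.Ico_eq_empty (not_lt.2 hxy)] at this
        exact Set.subset_empty_iff.1 this
      simp [h2, hx]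
    · simp [sep, hx, hy]
  rw [sum_congr rfl fun S _ => h1 S, ← sum_filter]
  rw [← measureReal_biUnion_finset ?_ ?_ ?_]
  · have h3 : (⋃ S ∈ univ.filter (fun S : Finset X => x ∈ S ∧ y ∉ S), cutSet z S) =
        Set.Ico (z y) (z x) := by
      apply Set.Subset.antisymm
      · intro θ hθ
        simp only [mem_filter, mem_univ, true_and, Set.mem_iUnion, exists_prop] at hθ
        obtain ⟨S, ⟨hx, hy⟩, hS⟩ := hθ
        exact cutSet_subset z hx hy hS
      · intro θ hθ
        simp only [mem_filter, mem_univ, true_and, Set.mem_iUnion, exists_prop]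
        refine ⟨univ.filter (fun a => θ < z a), ⟨?_, ?_⟩, ?_⟩
        · simpa using hθ.2
        · simpa using hθ.1
        · intro a; simp
    rw [h3, Real.volume_real_Ico_of_le hxy, abs_of_nonneg (by linarith)]
  · intro S _ S' _ hne
    exact cutSet_disjoint z hne
  · intro S _
    exact cutSet_measurable z S
  · intro S hS
    rw [mem_filter] at hS
    exact ((measure_mono (cutSet_subset z hS.2.1 hS.2.2)).trans_lt measure_Ico_lt_top).ne

/-- the sequence space `ℓ₁` -/
abbrev L1 : Type := lp (fun _ : ℕ => ℝ) 1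

lemma l1_hasSum (f : L1) : HasSum (fun i => |f i|) ‖f‖ := by
  have := lp.hasSum_norm (p := 1) (by norm_num) f
  simpa using this

lemma l1_dist_hasSum (f g : L1) : HasSum (fun i => |f i - g i|) (dist f g) := by
  rw [dist_eq_norm]
  exact l1_hasSum (f - g)

/-- A finite family in `ℓ₁` carries a cut metric. -/
theorem exists_cuts (f : X → L1) : ∃ w : Finset X → ℝ, (∀ S, 0 ≤ w S) ∧
    ∀ x y, dist (f x) (f y) = cutDist w x y := by
  classical
  let z : ℕ → X → ℝ := fun i x => f x i
  let W : ℕ → Finset X → ℝ := fun i S => volume.real (cutSet (z i) S)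
  have hW0 : ∀ i S, 0 ≤ W i S := fun i S => measureReal_nonneg
  have hsm : ∀ S, (∃ x y, sep S x y = 1) → Summable (fun i => W i S) := by
    rintro S ⟨x, y, hS⟩
    refine Summable.of_nonneg_of_le (fun i => hW0 i S) (fun i => ?_)
      (l1_dist_hasSum (f x) (f y)).summable
    have h1 := cut_one (z i) x y
    have h2 : W i S * sep S x y ≤ ∑ S, volume.real (cutSet (z i) S) * sep S x y :=
      single_le_sum (f := fun S => volume.real (cutSet (z i) S) * sep S x y)
        (fun S _ => mul_nonneg (hW0 i S) (sep_nonneg S x y)) (mem_univ S)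
    rw [hS, mul_one] at h2
    exact h2.trans (le_of_eq h1.symm)
  refine ⟨fun S => if (∃ x y, sep S x y = 1) then ∑' i, W i S else 0, fun S => ?_,
    fun x y => ?_⟩
  · by_cases h : ∃ x y, sep S x y = 1
    · simp only [h, if_true]
      exact tsum_nonneg fun i => hW0 i S
    · simp only [h, if_false]
      exact le_rfl
  · have h1 : HasSum (fun i => ∑ S, W i S * sep S x y)
        (∑ S, (if (∃ x y, sep S x y = 1) then ∑' i, W i S else 0) * sep S x y) := by
      refine hasSum_sum fun S _ => ?_
      by_cases hS : sep S x y = 1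
      · rw [if_pos ⟨x, y, hS⟩]
        exact ((hsm S ⟨x, y, hS⟩).hasSum).mul_right _
      · have h0 : sep S x y = 0 := by
          unfold sep at hS ⊢
          split_ifs at hS ⊢ <;> simp_all
        rw [h0]
        simp only [mul_zero]
        exact hasSum_zero
    have h2 : (fun i => ∑ S, W i S * sep S x y) = fun i => |f x i - f y i| := by
      funext i
      exact (cut_one (z i) x y).symm
    rw [h2] at h1
    exact (l1_dist_hasSum (f x) (f y)).unique h1

/-- Isometric embedding of a cut metric into dimension `n² + 1`. -/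
theorem exists_isometric (w : Finset X → ℝ) (hw : ∀ S, 0 ≤ w S) :
    ∃ k : ℕ, k ≤ Fintype.card X ^ 2 + 1 ∧ ∃ F : X → Fin k → ℝ, ∀ x y,
      ∑ i, |F x i - F y i| = cutDist w x y := by
  classical
  set W := ∑ S, w S with hW
  have hW0 : 0 ≤ W := sum_nonneg fun S _ => hw S
  by_cases hWz : W = 0
  · refine ⟨0, Nat.zero_le _, fun _ i => i.elim0, fun x y => ?_⟩
    have h1 : ∀ S ∈ univ, w S = 0 := (sum_eq_zero_iff_of_nonneg fun S _ => hw S).1 hWz
    have h2 : cutDist w x y = 0 := sum_eq_zero fun S hS => by rw [h1 S hS, zero_mul]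
    rw [h2]
    simp
  have hWpos : 0 < W := lt_of_le_of_ne hW0 (Ne.symm hWz)
  let δ : Finset X → (X × X → ℝ) := fun S p => sep S p.1 p.2
  have hmem : (fun p : X × X => cutDist w p.1 p.2 / W) ∈ convexHull ℝ (Set.range δ) := by
    have h1 : (fun p : X × X => cutDist w p.1 p.2 / W) = ∑ S, (w S / W) • δ S := by
      funext p
      rw [Finset.sum_apply]
      unfold cutDist
      rw [sum_div]
      refine sum_congr rfl fun S _ => ?_
      simp [δ]
      ring
    rw [h1]
    refine (convex_convexHull ℝ _).sum_mem (fun S _ => div_nonneg (hw S) hW0) ?_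
      fun S _ => subset_convexHull ℝ _ ⟨S, rfl⟩
    rw [← sum_div, ← hW, div_self hWz]
  rw [convexHull_eq_union] at hmem
  simp only [Set.mem_iUnion, exists_prop] at hmem
  obtain ⟨t, htr, hai, hmt⟩ := hmem
  rw [Finset.mem_convexHull] at hmt
  obtain ⟨c, hc0, hc1, hct⟩ := hmt
  have hcard : t.card ≤ Fintype.card X ^ 2 + 1 := by
    have h1 := hai.card_le_finrank_succ
    have h2 : Module.finrank ℝ (vectorSpan ℝ (Set.range ((↑) : t → (X × X → ℝ)))) ≤
        Module.finrank ℝ (X × X → ℝ) := Submodule.finrank_le _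
    rw [Module.finrank_fintype_fun_eq_card, Fintype.card_prod, ← sq] at h2
    rw [Fintype.card_coe] at h1
    omega
  have hS : ∀ e : t, ∃ S, δ S = e := fun e => htr e.2
  choose S hS using hS
  refine ⟨t.card, hcard, fun x i => W * c (t.equivFin.symm i) *
    (if x ∈ S (t.equivFin.symm i) then 1 else 0), fun x y => ?_⟩
  have h1 : ∑ i, |W * c (t.equivFin.symm i) * (if x ∈ S (t.equivFin.symm i) then 1 else 0) -
      W * c (t.equivFin.symm i) * (if y ∈ S (t.equivFin.symm i) then 1 else 0)| =
      ∑ e : t, |W * c e * (if x ∈ S e then 1 else 0) -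
        W * c e * (if y ∈ S e then 1 else 0)| :=
    Equiv.sum_comp t.equivFin.symm (fun e : t => |W * c e * (if x ∈ S e then 1 else 0) -
        W * c e * (if y ∈ S e then 1 else 0)|)
  rw [h1]
  have h2 : ∀ e : t, |W * c e * (if x ∈ S e then 1 else 0) -
        W * c e * (if y ∈ S e then 1 else 0)| = W * (c e * (e : X × X → ℝ) (x, y)) := by
    intro e
    have h3 : (e : X × X → ℝ) (x, y) = sep (S e) x y := by rw [← hS e]
    rw [h3, ← mul_sub, abs_mul, abs_of_nonneg (mul_nonneg hW0 (hc0 e e.2)), mul_assoc]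
    congr 2
    unfold sep
    by_cases hx : x ∈ S e <;> by_cases hy : y ∈ S e <;> simp [hx, hy]
  rw [sum_congr rfl fun e _ => h2 e, ← mul_sum]
  have h3 : ∑ e : t, c e * (e : X × X → ℝ) (x, y) = cutDist w x y / W := by
    have h4 := congrFun hct (x, y)
    rw [centerMass_eq_of_sum_1 _ _ hc1] at h4
    simp only [id] at h4
    rw [← h4, Finset.sum_apply]
    rw [← Finset.sum_coe_sort t (fun e => (c e • e) (x, y))]
    rfl
  rw [h3, mul_div_cancel₀ _ hWz]

end Pool.Agent.Helper75.DR
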