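import Pool.Agent.Helper75.DR.Core
import Pool.Agent.Helper75.DR.Cuts

/-!
# The dimension bound
-/

set_option autoImplicit false

open Finset Real MeasureTheory

namespace Pool.Agent.Helper75.DR

/-- choice of parameters -/
lemma params (n : ℕ) (hn : 2 ≤ n) (D : ℝ) (hD : 256 ≤ D) :
    ∃ (Φ Λ : ℝ) (k A : ℕ), 64 ≤ Φ ∧ 16 + 150 * (log n / log Φ) = Λ ∧ 8 * Λ ≤ D ∧ 0 < k ∧ 0 < A ∧
      2048 * Φ ^ 4 * log (2 * (n : ℝ) ^ 2) ≤ k ∧ 128 * Λ ^ 2 * log (2 * (n : ℝ) ^ 2) ≤ A ∧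
      ((A * k : ℕ) : ℝ) ≤ 10 ^ 18 * (n : ℝ) ^ ((10 : ℝ) ^ 18 / D) * (min D (log n)) ^ 2 *
        (log n) ^ 2 := by
  have hnR : (2 : ℝ) ≤ n := by exact_mod_cast hn
  have hn0 : (0 : ℝ) < n := by linarith
  have hD0 : 0 < D := by linarith
  set L := log (n : ℝ) with hL
  have hlog2 := Real.log_two_gt_d9
  have hL2 : 0.69 ≤ L := by
    have : log 2 ≤ L := log_le_log (by norm_num) hnR
    linarith
  have hL0 : 0 < L := by linarith
  set P := (n : ℝ) ^ ((2400 : ℝ) / D) with hP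
  have hP1 : 1 ≤ P := one_le_rpow (by linarith) (by positivity)
  have hlogP : log P = 2400 / D * L := by rw [hP, log_rpow hn0]
  set Φ := 64 * P with hΦ
  have hΦ64 : 64 ≤ Φ := by linarith
  have hlogΦ : log Φ = log 64 + 2400 / D * L := by
    rw [hΦ, log_mul (by norm_num) (by linarith), hlogP]
  have hlog64 : 4.14 ≤ log 64 := by
    have : (64 : ℝ) = 2 ^ 6 := by norm_num
    rw [this, log_pow]
    push_cast
    linarith
  have hq : 0 < 2400 / D * L := by positivity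
  have hlogΦ0 : 0 < log Φ := by rw [hlogΦ]; linarith
  set Λ := 16 + 150 * (L / log Φ) with hΛ
  have h1 : L / log Φ ≤ D / 2400 := by
    rw [div_le_div_iff₀ hlogΦ0 (by norm_num)]
    have : 2400 / D * L * D = 2400 * L := by field_simp
    rw [hlogΦ]
    nlinarith
  have h2 : L / log Φ ≤ L / 4.14 := by
    apply div_le_div_of_nonneg_left hL0.le (by norm_num)
    rw [hlogΦ]; linarith
  have h3 : 0 < L / log Φ := by positivity
  have hΛ8 : 8 * Λ ≤ D := by rw [hΛ]; linarith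
  have hΛ60 : Λ ≤ 60 * L := by
    have : L / 4.14 = L * (1 / 4.14) := by ring
    have h4 : (1 : ℝ) / 4.14 ≤ 0.242 := by norm_num
    have h5 : L / 4.14 ≤ L * 0.242 := by rw [this]; exact mul_le_mul_of_nonneg_left h4 hL0.le
    rw [hΛ]
    nlinarith
  set μ := min D L with hμ
  have hμ69 : 0.69 ≤ μ := le_min (by linarith) hL2
  have hΛμ : Λ ≤ 60 * μ := by
    rcases min_cases D L with ⟨h, _⟩ | ⟨h, _⟩
    · rw [hμ, h]; linarith
    · rw [hμ, h]; exact hΛ60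
  have hΛ0 : 0 < Λ := by rw [hΛ]; linarith
  set ℓ := log (2 * (n : ℝ) ^ 2) with hℓ
  have hℓ' : ℓ = log 2 + 2 * L := by
    rw [hℓ, log_mul (by norm_num) (by positivity), log_pow]
    push_cast
    rfl
  have hℓ3 : ℓ ≤ 3 * L := by
    have : log 2 ≤ L := log_le_log (by norm_num) hnR
    rw [hℓ']; linarith
  have hℓ0 : 0 < ℓ := by rw [hℓ']; linarith
  set N := (n : ℝ) ^ ((10 : ℝ) ^ 18 / D) with hN
  have hP4 : P ^ 4 ≤ N := by
    rw [hP, hN, ← rpow_natCast, ← rpow_mul hn0.le]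
    apply rpow_le_rpow_of_exponent_le (by linarith)
    rw [div_mul_eq_mul_div]
    apply div_le_div_of_nonneg_right _ hD0.le
    norm_num
  have hN1 : 1 ≤ N := one_le_rpow (by linarith) (by positivity)
  refine ⟨Φ, Λ, ⌈2048 * Φ ^ 4 * ℓ⌉₊, ⌈128 * Λ ^ 2 * ℓ⌉₊, hΦ64, rfl, hΛ8,
    Nat.ceil_pos.2 (by positivity), Nat.ceil_pos.2 (by positivity), Nat.le_ceil _, Nat.le_ceil _,
    ?_⟩
  have hk : (⌈2048 * Φ ^ 4 * ℓ⌉₊ : ℝ) ≤ 1.1 * 10 ^ 11 * L * N := by
    have h5 : (⌈2048 * Φ ^ 4 * ℓ⌉₊ : ℝ) ≤ 2048 * Φ ^ 4 * ℓ + 1 :=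
      (Nat.ceil_lt_add_one (by positivity)).le
    have h6 : Φ ^ 4 ≤ 16777216 * N := by
      rw [hΦ, mul_pow]
      norm_num
      exact hP4
    have h7 : Φ ^ 4 * ℓ ≤ 16777216 * N * (3 * L) :=
      mul_le_mul h6 hℓ3 hℓ0.le (by positivity)
    have h8 : 0.69 * 1 ≤ L * N := mul_le_mul hL2 hN1 (by norm_num) hL0.le
    have e1 : 2048 * Φ ^ 4 * ℓ = 2048 * (Φ ^ 4 * ℓ) := by ring
    have e2 : 16777216 * N * (3 * L) = 50331648 * (L * N) := by ring
    have e3 : 1.1 * 10 ^ 11 * L * N = 110000000000 * (L * N) := by ring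
    rw [e2] at h7
    refine h5.trans ?_
    rw [e1, e3]
    linarith
  have hA : (⌈128 * Λ ^ 2 * ℓ⌉₊ : ℝ) ≤ 1.4 * 10 ^ 6 * μ ^ 2 * L := by
    have h5 : (⌈128 * Λ ^ 2 * ℓ⌉₊ : ℝ) ≤ 128 * Λ ^ 2 * ℓ + 1 :=
      (Nat.ceil_lt_add_one (by positivity)).le
    have h6 : Λ ^ 2 ≤ 3600 * μ ^ 2 := by
      have := pow_le_pow_left₀ hΛ0.le hΛμ 2
      linarith [this, mul_pow (60 : ℝ) μ 2]
    have h7 : Λ ^ 2 * ℓ ≤ 3600 * μ ^ 2 * (3 * L) :=
      mul_le_mul h6 hℓ3 hℓ0.le (by positivity)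
    have h8 : 0.69 ^ 2 ≤ μ ^ 2 := pow_le_pow_left₀ (by norm_num) hμ69 2
    have h9 : 0.69 ^ 2 * 0.69 ≤ μ ^ 2 * L := mul_le_mul h8 hL2 (by norm_num) (by positivity)
    have e1 : 128 * Λ ^ 2 * ℓ = 128 * (Λ ^ 2 * ℓ) := by ring
    have e2 : 3600 * μ ^ 2 * (3 * L) = 10800 * (μ ^ 2 * L) := by ring
    have e3 : 1.4 * 10 ^ 6 * μ ^ 2 * L = 1400000 * (μ ^ 2 * L) := by ring
    rw [e2] at h7
    norm_num at h9
    refine h5.trans ?_
    rw [e1, e3]
    linarith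
  push_cast
  have hk0 : (0 : ℝ) ≤ (⌈2048 * Φ ^ 4 * ℓ⌉₊ : ℝ) := Nat.cast_nonneg _
  refine (mul_le_mul hA hk hk0 (by positivity)).trans ?_
  have h10 : 0 ≤ N * μ ^ 2 * L ^ 2 := by positivity
  have e1 : 1.4 * 10 ^ 6 * μ ^ 2 * L * (1.1 * 10 ^ 11 * L * N) =
      154000000000000000 * (N * μ ^ 2 * L ^ 2) := by ring
  have e2 : 10 ^ 18 * N * μ ^ 2 * L ^ 2 = 1000000000000000000 * (N * μ ^ 2 * L ^ 2) := by ring
  rw [e1, e2]
  linarith

/-- The dimension bound in explicit form. -/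
theorem dim_bound (n : ℕ) (hn : 2 ≤ n) (D : ℝ) (hD : 1 ≤ D) : ∃ k0 : ℕ,
    (k0 : ℝ) ≤ 10 ^ 18 * (n : ℝ) ^ ((10 : ℝ) ^ 18 / D) * (min D (log n)) ^ 2 * (log n) ^ 2 ∧
    ∀ M : Finset L1, M.card ≤ n → ∃ k ≤ k0, ∃ (F : M → Fin k → ℝ) (s : ℝ), 0 < s ∧
      ∀ x y : M, s * dist x y ≤ ∑ i, |F x i - F y i| ∧
        ∑ i, |F x i - F y i| ≤ s * D * dist x y := by
  classical
  have hnR : (2 : ℝ) ≤ n := by exact_mod_cast hn
  have hn0 : (0 : ℝ) < n := by linarith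
  have hD0 : 0 < D := by linarith
  have hsmall : ∀ M : Finset L1, M.card < 2 → ∀ k : ℕ, ∃ k' ≤ k, ∃ (F : M → Fin k' → ℝ) (s : ℝ),
      0 < s ∧ ∀ x y : M, s * dist x y ≤ ∑ i, |F x i - F y i| ∧
        ∑ i, |F x i - F y i| ≤ s * D * dist x y := by
    intro M hM k
    refine ⟨0, Nat.zero_le _, fun _ i => i.elim0, 1, one_pos, fun x y => ?_⟩
    have : x = y := by
      have h1 : M.card ≤ 1 := by omega
      exact Subtype.ext (card_le_one.1 h1 x x.2 y y.2)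
    subst this
    simp
  rcases lt_or_ge D 256 with h256 | h256
  · refine ⟨n ^ 2 + 1, ?_, fun M hM => ?_⟩
    · have hlog2 := Real.log_two_gt_d9
      have hL2 : 0.69 ≤ log n := by
        have : log 2 ≤ log n := log_le_log (by norm_num) hnR
        linarith
      have hμ : 0.69 ≤ min D (log n) := le_min (by linarith) hL2
      have h1 : (n : ℝ) ^ 2 ≤ (n : ℝ) ^ ((10 : ℝ) ^ 18 / D) := by
        rw [← rpow_natCast]
        apply rpow_le_rpow_of_exponent_le (by linarith)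
        rw [le_div_iff₀ hD0]
        push_cast
        linarith
      have h2 : 0.69 ^ 2 ≤ (min D (log n)) ^ 2 := pow_le_pow_left₀ (by norm_num) hμ 2
      have h3 : 0.69 ^ 2 ≤ (log n) ^ 2 := pow_le_pow_left₀ (by norm_num) hL2 2
      have h4' : (0.69 : ℝ) ^ 2 * 0.69 ^ 2 ≤ (min D (log n)) ^ 2 * (log n) ^ 2 :=
        mul_le_mul h2 h3 (by norm_num) (by positivity)
      have h4 : (0.22 : ℝ) ≤ (min D (log n)) ^ 2 * (log n) ^ 2 := by
        norm_num at h4' ⊢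
        linarith
      have h5 : (0 : ℝ) ≤ (n : ℝ) ^ ((10 : ℝ) ^ 18 / D) := by positivity
      have h6 : (n : ℝ) ^ ((10 : ℝ) ^ 18 / D) * 0.22 ≤
          (n : ℝ) ^ ((10 : ℝ) ^ 18 / D) * ((min D (log n)) ^ 2 * (log n) ^ 2) :=
        mul_le_mul_of_nonneg_left h4 h5
      have e1 : 10 ^ 18 * (n : ℝ) ^ ((10 : ℝ) ^ 18 / D) * (min D (log n)) ^ 2 * (log n) ^ 2 =
        10 ^ 18 * ((n : ℝ) ^ ((10 : ℝ) ^ 18 / D) * ((min D (log n)) ^ 2 * (log n) ^ 2)) := by ring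
      have h7 : (4 : ℝ) ≤ (n : ℝ) ^ 2 := by nlinarith
      rw [e1]
      push_cast
      linarith
    · obtain ⟨w, hw, hd⟩ := exists_cuts (X := M) (fun x => (x : L1))
      obtain ⟨k, hk, F, hF⟩ := exists_isometric w hw
      refine ⟨k, hk.trans ?_, F, 1, one_pos, fun x y => ?_⟩
      · rw [Fintype.card_coe]
        have := Nat.pow_le_pow_left hM 2
        omega
      · rw [hF x y, ← hd x y, one_mul, one_mul]
        have h1 : dist (x : L1) (y : L1) = dist x y := rfl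
        rw [h1]
        refine ⟨le_rfl, ?_⟩
        have := dist_nonneg (x := x) (y := y)
        nlinarith
  · obtain ⟨Φ, Λ, k, A, hΦ, hΛ, hΛD, hk0, hA0, hk, hA, hbound⟩ := params n hn D h256
    refine ⟨A * k, hbound, fun M hM => ?_⟩
    rcases lt_or_ge M.card 2 with hM2 | hM2
    · exact hsmall M hM2 _
    obtain ⟨w, hw, hd⟩ := exists_cuts (X := M) (fun x => (x : L1))
    have hcard : Fintype.card M = M.card := Fintype.card_coe M
    have hMR : (M.card : ℝ) ≤ n := by exact_mod_cast hM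
    have hM2R : (2 : ℝ) ≤ M.card := by exact_mod_cast hM2
    have hlogΦ : 0 < log Φ := log_pos (by linarith)
    have hl : log (2 * (M.card : ℝ) ^ 2) ≤ log (2 * (n : ℝ) ^ 2) :=
      log_le_log (by positivity) (by
        have := pow_le_pow_left₀ (by linarith : (0 : ℝ) ≤ M.card) hMR 2
        linarith)
    obtain ⟨F, hF⟩ := core (X := M) w hw (fun x y => hd x y) (by rw [hcard]; exact hM2)
      (Φ := Φ) (Λ := Λ) hΦ (by
        rw [← hΛ, hcard]
        have : log (M.card : ℝ) ≤ log n := log_le_log (by linarith) hMR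
        have := div_le_div_of_nonneg_right this hlogΦ.le
        linarith) (k := k) (A := A) hk0 hA0 (by
        rw [hcard]
        exact (mul_le_mul_of_nonneg_left hl (by positivity)).trans hk) (by
        rw [hcard]
        exact (mul_le_mul_of_nonneg_left hl (by positivity)).trans hA)
    refine ⟨A * k, le_rfl, F, 1 / 8, by norm_num, fun x y => ?_⟩
    obtain ⟨h1, h2⟩ := hF x y
    refine ⟨by linarith, h2.trans ?_⟩
    have := dist_nonneg (x := x) (y := y)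
    nlinarith

end Pool.Agent.Helper75.DR
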