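import Pool.Agent.Helper75.DR.Sampling

/-!
# A low dimensional snapshot of a cut metric at one scale
-/

set_option autoImplicit false

open Finset Real

namespace Pool.Agent.Helper75.DR

variable {X : Type*} [Fintype X] [DecidableEq X]

/-- indicator that the cut `S` separates `x` and `y` -/
def sep (S : Finset X) (x y : X) : ℝ := if (x ∈ S ↔ y ∈ S) then 0 else 1

omit [Fintype X] in
lemma sep_nonneg (S : Finset X) (x y : X) : 0 ≤ sep S x y := by
  unfold sep; split_ifs <;> norm_num

/-- the cut pseudometric with weights `w` -/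
def cutDist (w : Finset X → ℝ) (x y : X) : ℝ := ∑ S, w S * sep S x y

/-- parity features -/
def chi (j : Finset X → Bool) (x : X) : ℝ := ∏ S, if j S = true ∧ x ∈ S then (-1 : ℝ) else 1

lemma chi_cases (j : Finset X → Bool) (x : X) : chi j x = 1 ∨ chi j x = -1 := by
  have h : chi j x ^ 2 = 1 := by
    unfold chi
    rw [← prod_pow]
    refine prod_eq_one fun S _ => ?_
    split_ifs <;> norm_num
  have h2 : (chi j x - 1) * (chi j x + 1) = 0 := by linear_combination h
  rcases mul_eq_zero.1 h2 with h3 | h3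
  · left; linarith
  · right; linarith

/-- product weights -/
def wt (a : Finset X → ℝ) (j : Finset X → Bool) : ℝ := ∏ S, if j S = true then a S else 1 - a S

omit [DecidableEq X] in
lemma wt_nonneg (a : Finset X → ℝ) (ha : ∀ S, 0 ≤ a S ∧ a S ≤ 1) (j : Finset X → Bool) :
    0 ≤ wt a j := by
  refine prod_nonneg fun S _ => ?_
  split_ifs
  · exact (ha S).1
  · linarith [(ha S).2]

lemma sum_prod_bool (F : Finset X → Bool → ℝ) :
    ∑ j : Finset X → Bool, ∏ S, F S (j S) = ∏ S, (F S true + F S false) := by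
  have h := Finset.prod_univ_sum (fun _ : Finset X => (univ : Finset Bool)) (fun S b => F S b)
  rw [Fintype.piFinset_univ] at h
  rw [← h]
  refine prod_congr rfl fun S _ => ?_
  simp

lemma sum_wt (a : Finset X → ℝ) : ∑ j, wt a j = 1 := by
  unfold wt
  rw [sum_prod_bool (fun S b => if b = true then a S else 1 - a S)]
  refine prod_eq_one fun S _ => ?_
  simp

lemma sum_wt_chi (a : Finset X → ℝ) (x y : X) :
    ∑ j, wt a j * (chi j x * chi j y) = ∏ S, (1 - 2 * a S * sep S x y) := by
  unfold wt chi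
  have h := sum_prod_bool (fun (S : Finset X) (b : Bool) => (if b = true then a S else 1 - a S) *
        ((if b = true ∧ x ∈ S then (-1 : ℝ) else 1) *
          (if b = true ∧ y ∈ S then (-1 : ℝ) else 1)))
  have h2 : ∀ j : Finset X → Bool, (∏ S, if j S = true then a S else 1 - a S) *
      ((∏ S, if j S = true ∧ x ∈ S then (-1 : ℝ) else 1) *
        ∏ S, if j S = true ∧ y ∈ S then (-1 : ℝ) else 1) =
      ∏ S, (if j S = true then a S else 1 - a S) *
        ((if j S = true ∧ x ∈ S then (-1 : ℝ) else 1) *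
          (if j S = true ∧ y ∈ S then (-1 : ℝ) else 1)) := by
    intro j
    rw [← prod_mul_distrib, ← prod_mul_distrib]
  rw [sum_congr rfl fun j _ => h2 j, h]
  refine prod_congr rfl fun S _ => ?_
  unfold sep
  by_cases hx : x ∈ S <;> by_cases hy : y ∈ S <;> simp [hx, hy] <;> ring

lemma prod_exp (w : Finset X → ℝ) (T : ℝ) (x y : X) :
    ∏ S, (1 - 2 * ((1 - exp (-(w S / T))) / 2) * sep S x y) = exp (-(cutDist w x y / T)) := by
  unfold cutDist
  rw [sum_div, ← sum_neg_distrib, exp_sum]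
  refine prod_congr rfl fun S _ => ?_
  unfold sep
  split_ifs
  · simp
  · simp; ring

/-- Snapshot of a cut metric at scale `T` in dimension `k`. -/
theorem kernel (w : Finset X → ℝ) (hw : ∀ S, 0 ≤ w S) {T ε : ℝ} (hT : 0 < T) (hε : 0 < ε)
    {k : ℕ} (hk0 : 0 < k) (hk : 2 * log (2 * (Fintype.card X : ℝ) ^ 2) / ε ^ 2 ≤ k) :
    ∃ g : X → Fin k → ℝ, ∀ x y,
      |∑ i, |g x i - g y i| - T * (1 - exp (-(cutDist w x y / T)))| ≤ 2 * T * ε := by
  have hkR : (0 : ℝ) < k := by exact_mod_cast hk0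
  set a : Finset X → ℝ := fun S => (1 - exp (-(w S / T))) / 2 with ha
  have ha01 : ∀ S, 0 ≤ a S ∧ a S ≤ 1 := by
    intro S
    have h1 : exp (-(w S / T)) ≤ 1 := by
      rw [exp_le_one_iff]
      have := div_nonneg (hw S) hT.le
      linarith
    have h2 := exp_pos (-(w S / T))
    simp only [ha]
    constructor <;> linarith
  have hv : ∀ (j : Finset X → Bool) (e : X × X), 0 ≤ (1 - chi j e.1 * chi j e.2) / 2 ∧
      (1 - chi j e.1 * chi j e.2) / 2 ≤ 1 := by
    intro j e
    rcases chi_cases j e.1 with h1 | h1 <;> rcases chi_cases j e.2 with h2 | h2 <;>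
      rw [h1, h2] <;> norm_num
  obtain ⟨s, hs⟩ := sampling (wt a) (wt_nonneg a ha01) (sum_wt a)
    (fun j (e : X × X) => (1 - chi j e.1 * chi j e.2) / 2) hv hε hk0 (by
      rw [Fintype.card_prod]
      push_cast
      rw [← sq]
      exact hk)
  refine ⟨fun x i => T / k * chi (s i) x, fun x y => ?_⟩
  have h1 := hs (x, y)
  have h2 : ∑ j, wt a j * ((1 - chi j x * chi j y) / 2) = (1 - exp (-(cutDist w x y / T))) / 2 := by
    have h3 := sum_wt_chi a x y
    simp only [ha] at h3
    rw [prod_exp] at h3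
    have : ∀ j, wt a j * ((1 - chi j x * chi j y) / 2) =
        wt a j / 2 - wt a j * (chi j x * chi j y) / 2 := fun j => by ring
    simp_rw [this]
    rw [sum_sub_distrib, ← sum_div, ← sum_div, sum_wt, h3]
    ring
  simp only at h1
  rw [h2] at h1
  have h4 : ∑ i, |T / k * chi (s i) x - T / k * chi (s i) y| =
      2 * T * ((∑ i, (1 - chi (s i) x * chi (s i) y) / 2) / k) := by
    rw [sum_div, mul_sum]
    refine sum_congr rfl fun i _ => ?_
    rw [← mul_sub, abs_mul, abs_of_nonneg (div_nonneg hT.le hkR.le)]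
    have h5 : |chi (s i) x - chi (s i) y| = 1 - chi (s i) x * chi (s i) y := by
      rcases chi_cases (s i) x with h1 | h1 <;> rcases chi_cases (s i) y with h2 | h2 <;>
        rw [h1, h2] <;> norm_num
    rw [h5]
    field_simp
  rw [h4]
  have h6 : 2 * T * ((∑ i, (1 - chi (s i) x * chi (s i) y) / 2) / k) -
      T * (1 - exp (-(cutDist w x y / T))) =
      2 * T * ((∑ i, (1 - chi (s i) x * chi (s i) y) / 2) / k -
        (1 - exp (-(cutDist w x y / T))) / 2) := by ring
  rw [h6, abs_mul, abs_of_nonneg (by positivity : 0 ≤ 2 * T)]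
  exact mul_le_mul_of_nonneg_left h1 (by positivity)

lemma one_sub_exp_neg_le (u : ℝ) : 1 - exp (-u) ≤ u := by
  have := add_one_le_exp (-u)
  linarith

lemma half_le_one_sub_exp_neg {u : ℝ} (h0 : 0 ≤ u) (h1 : u ≤ 1) : u / 2 ≤ 1 - exp (-u) := by
  have h2 := add_one_le_exp u
  have h3 : exp (-u) ≤ 1 / (1 + u) := by
    rw [exp_neg, ← one_div]
    exact one_div_le_one_div_of_le (by linarith) (by linarith)
  have h4 : u / 2 ≤ 1 - 1 / (1 + u) := by
    have : (0 : ℝ) < 1 + u := by linarith
    rw [le_sub_iff_add_le, ← le_sub_iff_add_le', div_le_iff₀ this]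
    nlinarith
  linarith

/-- Snapshot of a cut metric at scale `T`, in convenient form. -/
theorem snapshot (w : Finset X → ℝ) (hw : ∀ S, 0 ≤ w S) {T ε : ℝ} (hT : 0 < T) (hε : 0 < ε)
    {k : ℕ} (hk0 : 0 < k) (hk : 2 * log (2 * (Fintype.card X : ℝ) ^ 2) / ε ^ 2 ≤ k) :
    ∃ g : X → Fin k → ℝ, ∀ x y,
      ∑ i, |g x i - g y i| ≤ cutDist w x y + 2 * T * ε ∧
      ∑ i, |g x i - g y i| ≤ T + 2 * T * ε ∧
      (cutDist w x y ≤ T → cutDist w x y / 2 - 2 * T * ε ≤ ∑ i, |g x i - g y i|) := by
  obtain ⟨g, hg⟩ := kernel w hw hT hε hk0 hk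
  refine ⟨g, fun x y => ?_⟩
  have h := abs_le.1 (hg x y)
  have h0 : 0 ≤ cutDist w x y := sum_nonneg fun S _ => mul_nonneg (hw S) (sep_nonneg S x y)
  have h1 := one_sub_exp_neg_le (cutDist w x y / T)
  have h2 := exp_pos (-(cutDist w x y / T))
  have h3 : T * (1 - exp (-(cutDist w x y / T))) ≤ cutDist w x y := by
    have := mul_le_mul_of_nonneg_left h1 hT.le
    rwa [mul_div_cancel₀ _ hT.ne'] at this
  refine ⟨by linarith, ?_, fun hle => ?_⟩
  · have : T * (1 - exp (-(cutDist w x y / T))) ≤ T := by nlinarith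
    linarith
  · have h4 := half_le_one_sub_exp_neg (div_nonneg h0 hT.le) ((div_le_one hT).2 hle)
    have h5 := mul_le_mul_of_nonneg_left h4 hT.le
    have h6 : T * (cutDist w x y / T / 2) = cutDist w x y / 2 := by
      field_simp
    linarith

end Pool.Agent.Helper75.DR
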