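import Mathlib

/-!
# A sampling lemma

A convex combination of vectors with entries in `[0,1]` is uniformly close to an average of few of
them.
-/

set_option autoImplicit false

open Finset Real

namespace Pool.Agent.Helper75.DR

/-- `exp (l z) ≤ cosh l + z sinh l` for `|z| ≤ 1` -/
lemma exp_mul_le (l z : ℝ) (h1 : -1 ≤ z) (h2 : z ≤ 1) :
    exp (l * z) ≤ cosh l + z * sinh l := by
  have h := convexOn_exp.2 (Set.mem_univ l) (Set.mem_univ (-l))
    (by linarith : (0 : ℝ) ≤ (1 + z) / 2) (by linarith : (0 : ℝ) ≤ (1 - z) / 2) (by ring)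
  simp only [smul_eq_mul] at h
  have e1 : (1 + z) / 2 * l + (1 - z) / 2 * (-l) = l * z := by ring
  rw [e1] at h
  rw [cosh_eq, sinh_eq]
  linarith

/-- the exponential moment of a centred variable -/
lemma mgf_le {J : Type*} [Fintype J] (p : J → ℝ) (hp : ∀ j, 0 ≤ p j) (hp1 : ∑ j, p j = 1)
    (z : J → ℝ) (hz : ∀ j, -1 ≤ z j ∧ z j ≤ 1) (hz0 : ∑ j, p j * z j = 0) (l : ℝ) :
    ∑ j, p j * exp (l * z j) ≤ exp (l ^ 2 / 2) := by
  calc ∑ j, p j * exp (l * z j) ≤ ∑ j, p j * (cosh l + z j * sinh l) :=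
        sum_le_sum fun j _ => mul_le_mul_of_nonneg_left (exp_mul_le l (z j) (hz j).1 (hz j).2) (hp j)
    _ = cosh l * ∑ j, p j + sinh l * ∑ j, p j * z j := by
        rw [mul_sum, mul_sum, ← sum_add_distrib]
        exact sum_congr rfl fun j _ => by ring
    _ = cosh l := by rw [hp1, hz0]; ring
    _ ≤ exp (l ^ 2 / 2) := cosh_le_exp_half_sq l

/-- some value is at most the mean -/
lemma exists_le_mean {J : Type*} [Fintype J] (p : J → ℝ) (hp : ∀ j, 0 ≤ p j) (hp1 : ∑ j, p j = 1)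
    (f : J → ℝ) {c : ℝ} (h : ∑ j, p j * f j ≤ c) : ∃ j, f j ≤ c := by
  by_contra hcon
  push Not at hcon
  have h1 : ∃ j, 0 < p j := by
    by_contra h2
    push Not at h2
    have : ∑ j, p j ≤ 0 := sum_nonpos fun j _ => h2 j
    linarith
  obtain ⟨j0, hj0⟩ := h1
  have h3 : ∑ j, p j * c < ∑ j, p j * f j :=
    sum_lt_sum (fun j _ => mul_le_mul_of_nonneg_left (hcon j).le (hp j))
      ⟨j0, mem_univ _, mul_lt_mul_of_pos_left (hcon j0) hj0⟩
  rw [← sum_mul, hp1, one_mul] at h3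
  linarith

/-- greedy choice keeps the exponential potential small -/
lemma greedy {J I : Type*} [Fintype J] [Fintype I] (p : J → ℝ) (hp : ∀ j, 0 ≤ p j)
    (hp1 : ∑ j, p j = 1) (z : J → I → ℝ) (hz : ∀ j e, -1 ≤ z j e ∧ z j e ≤ 1)
    (hz0 : ∀ e, ∑ j, p j * z j e = 0) (l : ℝ) (k : ℕ) :
    ∃ s : Fin k → J, ∑ e, (exp (l * ∑ i, z (s i) e) + exp (-(l * ∑ i, z (s i) e))) ≤
      2 * Fintype.card I * exp (k * (l ^ 2 / 2)) := by
  induction k with
  | zero =>
    refine ⟨fun i => i.elim0, ?_⟩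
    simp
    have : ∑ _e : I, ((1 : ℝ) + 1) = 2 * Fintype.card I := by
      rw [sum_const, card_univ, nsmul_eq_mul]; ring
    linarith
  | succ k ih =>
    obtain ⟨s, hs⟩ := ih
    obtain ⟨j, hj⟩ := exists_le_mean p hp hp1
      (fun j => ∑ e, (exp (l * (z j e + ∑ i, z (s i) e)) + exp (-(l * (z j e + ∑ i, z (s i) e)))))
      (c := 2 * Fintype.card I * exp ((k + 1 : ℕ) * (l ^ 2 / 2))) (by
        have e1 : ∑ j, p j * ∑ e, (exp (l * (z j e + ∑ i, z (s i) e)) +
            exp (-(l * (z j e + ∑ i, z (s i) e)))) =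
            ∑ e, (exp (l * ∑ i, z (s i) e) * ∑ j, p j * exp (l * z j e) +
              exp (-(l * ∑ i, z (s i) e)) * ∑ j, p j * exp (-l * z j e)) := by
          generalize hU : (fun e => ∑ i, z (s i) e) = U
          have hU' : ∀ e, ∑ i, z (s i) e = U e := fun e => by rw [← hU]
          simp_rw [hU', mul_sum, ← sum_add_distrib]
          rw [sum_comm]
          refine sum_congr rfl fun e _ => sum_congr rfl fun j _ => ?_
          have e2 : l * (z j e + U e) = l * z j e + l * U e := by ring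
          have e3 : -(l * (z j e + U e)) = -l * z j e + -(l * U e) := by ring
          rw [e3, e2, exp_add, exp_add]
          ring
        rw [e1]
        have e4 : ∀ e, exp (l * ∑ i, z (s i) e) * ∑ j, p j * exp (l * z j e) +
              exp (-(l * ∑ i, z (s i) e)) * ∑ j, p j * exp (-l * z j e) ≤
            (exp (l * ∑ i, z (s i) e) + exp (-(l * ∑ i, z (s i) e))) * exp (l ^ 2 / 2) := by
          intro e
          have h1 := mgf_le p hp hp1 (fun j => z j e) (fun j => hz j e) (hz0 e) l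
          have h2 := mgf_le p hp hp1 (fun j => z j e) (fun j => hz j e) (hz0 e) (-l)
          rw [neg_sq] at h2
          have h3 := mul_le_mul_of_nonneg_left h1 (exp_pos (l * ∑ i, z (s i) e)).le
          have h4 := mul_le_mul_of_nonneg_left h2 (exp_pos (-(l * ∑ i, z (s i) e))).le
          linarith
        refine (sum_le_sum fun e _ => e4 e).trans ?_
        rw [← sum_mul]
        refine (mul_le_mul_of_nonneg_right hs (exp_pos _).le).trans ?_
        rw [mul_assoc, ← exp_add]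
        apply le_of_eq
        congr 2
        push_cast
        ring)
    refine ⟨Fin.cons j s, ?_⟩
    have e5 : ∀ e, ∑ i, z ((Fin.cons j s : Fin (k + 1) → J) i) e = z j e + ∑ i, z (s i) e := by
      intro e
      rw [Fin.sum_univ_succ]
      simp
    simp_rw [e5]
    exact hj

/-- Sampling lemma. -/
theorem sampling {J I : Type*} [Fintype J] [Fintype I] (p : J → ℝ) (hp : ∀ j, 0 ≤ p j)
    (hp1 : ∑ j, p j = 1) (v : J → I → ℝ) (hv : ∀ j e, 0 ≤ v j e ∧ v j e ≤ 1)
    {ε : ℝ} (hε : 0 < ε) {k : ℕ} (hk0 : 0 < k)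
    (hk : 2 * log (2 * Fintype.card I) / ε ^ 2 ≤ k) :
    ∃ s : Fin k → J, ∀ e, |(∑ i, v (s i) e) / k - ∑ j, p j * v j e| ≤ ε := by
  classical
  have hq : ∀ e, 0 ≤ ∑ j, p j * v j e ∧ ∑ j, p j * v j e ≤ 1 := by
    intro e
    refine ⟨sum_nonneg fun j _ => mul_nonneg (hp j) (hv j e).1, ?_⟩
    rw [← hp1]
    exact sum_le_sum fun j _ => mul_le_of_le_one_right (hp j) (hv j e).2
  obtain ⟨s, hs⟩ := greedy p hp hp1 (fun j e => v j e - ∑ j, p j * v j e)
    (fun j e => ⟨by linarith [(hv j e).1, (hq e).2], by linarith [(hv j e).2, (hq e).1]⟩)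
    (fun e => by
      simp_rw [mul_sub]
      rw [sum_sub_distrib, ← sum_mul, hp1, one_mul, sub_self]) ε k
  refine ⟨s, fun e => ?_⟩
  have hkR : (0 : ℝ) < k := by exact_mod_cast hk0
  set U := ∑ i, (v (s i) e - ∑ j, p j * v j e) with hU
  have hU' : (∑ i, v (s i) e) / k - ∑ j, p j * v j e = U / k := by
    rw [hU, sum_sub_distrib, sum_const, card_univ, Fintype.card_fin, nsmul_eq_mul]
    field_simp
  have hcard : (0 : ℝ) < 2 * Fintype.card I := by
    have : 0 < Fintype.card I := Fintype.card_pos_iff.2 ⟨e⟩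
    positivity
  have h1 : exp (ε * U) + exp (-(ε * U)) ≤ 2 * Fintype.card I * exp (k * (ε ^ 2 / 2)) := by
    refine le_trans ?_ hs
    exact single_le_sum (f := fun e => exp (ε * ∑ i, (v (s i) e - ∑ j, p j * v j e)) +
      exp (-(ε * ∑ i, (v (s i) e - ∑ j, p j * v j e))))
      (fun e _ => add_nonneg (exp_pos _).le (exp_pos _).le) (mem_univ e)
  have h2 : exp (ε * |U|) ≤ 2 * Fintype.card I * exp (k * (ε ^ 2 / 2)) := by
    rcases abs_cases U with ⟨h, -⟩ | ⟨h, -⟩
    · rw [h]; linarith [exp_pos (-(ε * U))]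
    · rw [h, mul_neg]; linarith [exp_pos (ε * U)]
  have h3 : ε * |U| ≤ log (2 * Fintype.card I) + k * (ε ^ 2 / 2) := by
    have := log_le_log (exp_pos _) h2
    rwa [log_exp, log_mul hcard.ne' (exp_pos _).ne', log_exp] at this
  rw [hU', abs_div, abs_of_pos hkR, div_le_iff₀ hkR]
  rw [div_le_iff₀ (by positivity)] at hk
  have h4 : ε * |U| ≤ ε * (ε * k) := by nlinarith
  exact le_of_mul_le_mul_left h4 hε

end Pool.Agent.Helper75.DR
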