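import Mathlib

/-!
# Smoothing a map at one scale by averaging over balls
-/

set_option autoImplicit false

open Finset Real MeasureTheory

namespace Pool.Agent.Helper75.DR

section avg
variable {X : Type*} {E : Type*} [NormedAddCommGroup E] [NormedSpace ℝ E]

/-- the average of `g` over `A` -/
noncomputable def avg (g : X → E) (A : Finset X) : E := (A.card : ℝ)⁻¹ • ∑ z ∈ A, g z

lemma avg_sub_le (g : X → E) {A : Finset X} (hA : A.Nonempty) (v : E) {M : ℝ}
    (h : ∀ z ∈ A, ‖g z - v‖ ≤ M) : ‖avg g A - v‖ ≤ M := by
  have hc : (0 : ℝ) < A.card := by exact_mod_cast hA.card_pos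
  have e : avg g A - v = (A.card : ℝ)⁻¹ • ∑ z ∈ A, (g z - v) := by
    unfold avg
    rw [sum_sub_distrib, sum_const, smul_sub, ← Nat.cast_smul_eq_nsmul ℝ, smul_smul,
      inv_mul_cancel₀ hc.ne', one_smul]
  rw [e, norm_smul, norm_inv, Real.norm_of_nonneg hc.le, inv_mul_le_iff₀ hc]
  refine (norm_sum_le _ _).trans ?_
  refine (sum_le_sum h).trans ?_
  rw [sum_const, nsmul_eq_mul]

lemma avg_nested [DecidableEq X] (g : X → E) {A P : Finset X} (hA : A.Nonempty) (hAP : A ⊆ P)
    {M : ℝ} (h : ∀ z ∈ P, ∀ z' ∈ P, ‖g z - g z'‖ ≤ M) :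
    ‖avg g A - avg g P‖ ≤ M * (1 - A.card / P.card) := by
  have hc : (0 : ℝ) < A.card := by exact_mod_cast hA.card_pos
  have hc' : (0 : ℝ) < P.card := by exact_mod_cast (hA.mono hAP).card_pos
  have e : avg g A - avg g P = -((P.card : ℝ)⁻¹ • ∑ z ∈ P \ A, (g z - avg g A)) := by
    have h1 : ∑ z ∈ A, (g z - avg g A) = 0 := by
      rw [sum_sub_distrib, sum_const, ← Nat.cast_smul_eq_nsmul ℝ]
      unfold avg
      rw [smul_smul, mul_inv_cancel₀ hc.ne', one_smul, sub_self]
    have h2 : ∑ z ∈ P, (g z - avg g A) = ∑ z ∈ P \ A, (g z - avg g A) := by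
      rw [← sum_sdiff hAP, h1, add_zero]
    rw [← h2, sum_sub_distrib, sum_const, ← Nat.cast_smul_eq_nsmul ℝ, smul_sub, smul_smul,
      inv_mul_cancel₀ hc'.ne', one_smul]
    unfold avg
    abel
  rw [e, norm_neg, norm_smul, norm_inv, Real.norm_of_nonneg hc'.le, inv_mul_le_iff₀ hc']
  have h3 : ∀ z ∈ P \ A, ‖g z - avg g A‖ ≤ M := by
    intro z hz
    rw [norm_sub_rev]
    refine avg_sub_le g hA _ fun z' hz' => h z' (hAP hz') z (sdiff_subset hz)
  refine (norm_sum_le _ _).trans ((sum_le_sum h3).trans ?_)
  rw [sum_const, nsmul_eq_mul, card_sdiff_of_subset hAP, Nat.cast_sub (card_le_card hAP)]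
  apply le_of_eq
  field_simp

end avg

variable {X : Type*} [Fintype X] [MetricSpace X]
variable {E : Type*} [NormedAddCommGroup E] [NormedSpace ℝ E]

open Classical in
/-- closed ball as a finset -/
noncomputable def bl (x : X) (R : ℝ) : Finset X := univ.filter (fun z => dist x z ≤ R)

@[simp] lemma mem_bl {x z : X} {R : ℝ} : z ∈ bl x R ↔ dist x z ≤ R := by simp [bl]

/-- logarithm of the size of a ball -/
noncomputable def lb (x : X) (R : ℝ) : ℝ := log ((bl x R).card : ℝ)

lemma bl_mono (x : X) : Monotone (bl x) := fun R R' h z hz => by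
  rw [mem_bl] at *; exact hz.trans h

lemma lb_nonneg (x : X) (R : ℝ) : 0 ≤ lb x R := log_natCast_nonneg _

lemma lb_mono (x : X) : Monotone (lb x) := fun R R' h => by
  unfold lb
  rcases Nat.eq_zero_or_pos (bl x R).card with h0 | h0
  · rw [h0]; simp [log_natCast_nonneg]
  · exact log_le_log (by exact_mod_cast h0) (by exact_mod_cast card_le_card (bl_mono x h))

lemma lb_le (x : X) (R : ℝ) : lb x R ≤ log (Fintype.card X) := by
  unfold lb
  rcases Nat.eq_zero_or_pos (bl x R).card with h0 | h0
  · rw [h0]; simp [log_natCast_nonneg]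
  · exact log_le_log (by exact_mod_cast h0) (by exact_mod_cast card_le_univ _)

lemma ratio_le {x y : X} (hxy : x ≠ y) {R : ℝ} (hR : 0 ≤ R) :
    1 - ((bl x (R - dist x y)).card : ℝ) / (bl x (R + dist x y)).card ≤
      3 / 2 * (lb x (R + dist x y) - lb x (R - dist x y)) := by
  have ht : 0 < dist x y := dist_pos.2 hxy
  have hP : 0 < (bl x (R + dist x y)).card :=
    card_pos.2 ⟨x, by rw [mem_bl, dist_self]; linarith⟩
  have hPR : (0 : ℝ) < (bl x (R + dist x y)).card := by exact_mod_cast hP
  have hmono := lb_mono x (show R - dist x y ≤ R + dist x y by linarith)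
  rcases Nat.eq_zero_or_pos (bl x (R - dist x y)).card with h0 | h0
  · rw [h0]
    have h1 : lb x (R - dist x y) = 0 := by unfold lb; rw [h0]; simp
    rw [h1]
    have h2 : 2 ≤ (bl x (R + dist x y)).card := by
      classical
      have : ({x, y} : Finset X) ⊆ bl x (R + dist x y) := by
        intro z hz
        rw [mem_insert, mem_singleton] at hz
        rcases hz with rfl | rfl
        · rw [mem_bl, dist_self]; linarith
        · rw [mem_bl]; linarith
      have h3 := card_le_card this
      rwa [card_pair hxy] at h3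
    have h3 : log 2 ≤ lb x (R + dist x y) := by
      unfold lb
      exact log_le_log (by norm_num) (by exact_mod_cast h2)
    have h4 := Real.log_two_gt_d9
    simp
    linarith
  · have h0R : (0 : ℝ) < (bl x (R - dist x y)).card := by exact_mod_cast h0
    have h1 : lb x (R + dist x y) - lb x (R - dist x y) =
        - log (((bl x (R - dist x y)).card : ℝ) / (bl x (R + dist x y)).card) := by
      unfold lb
      rw [log_div h0R.ne' hPR.ne']
      ring
    have h2 := log_le_sub_one_of_pos (div_pos h0R hPR)
    linarith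

/-- The pointwise estimate. -/
lemma avg_ball_sub (g : X → E) {r a R : ℝ} (ha : 0 < a) (hra : r ≤ a) (haR : a ≤ R)
    (hg : ∀ z z', ‖g z - g z'‖ ≤ dist z z' + r) {x y : X} (hxy : x ≠ y) :
    ‖avg g (bl x R) - avg g (bl y R)‖ ≤
      R * (15 * (lb x (R + dist x y) - lb x (R - dist x y))) +
        (if a < dist x y then 4 * dist x y else 0) := by
  classical
  have ht : 0 < dist x y := dist_pos.2 hxy
  have hR : 0 < R := ha.trans_le haR
  have hmono := lb_mono x (show R - dist x y ≤ R + dist x y by linarith)
  have hxR : (bl x R).Nonempty := ⟨x, by rw [mem_bl, dist_self]; exact hR.le⟩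
  have hyR : (bl y R).Nonempty := ⟨y, by rw [mem_bl, dist_self]; exact hR.le⟩
  have hnn : 0 ≤ R * (15 * (lb x (R + dist x y) - lb x (R - dist x y))) := by
    have : 0 ≤ lb x (R + dist x y) - lb x (R - dist x y) := by linarith
    positivity
  by_cases hRt : dist x y ≤ R
  · have hcase : 0 ≤ (if a < dist x y then 4 * dist x y else 0) := by
      split_ifs
      · positivity
      · exact le_rfl
    have hPne : (0 : ℝ) < (bl x (R + dist x y)).card := by
      have : 0 < (bl x (R + dist x y)).card :=
        card_pos.2 ⟨x, by rw [mem_bl, dist_self]; linarith⟩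
      exact_mod_cast this
    have hosc : ∀ z ∈ bl x (R + dist x y), ∀ z' ∈ bl x (R + dist x y), ‖g z - g z'‖ ≤ 5 * R := by
      intro z hz z' hz'
      rw [mem_bl] at hz hz'
      have h1 := hg z z'
      have h2 := dist_triangle_left z z' x
      linarith
    have hx1 : bl x R ⊆ bl x (R + dist x y) := bl_mono x (by linarith)
    have hy1 : bl y R ⊆ bl x (R + dist x y) := by
      intro z hz
      rw [mem_bl] at hz ⊢
      linarith [dist_triangle x y z]
    have hx2 : bl x (R - dist x y) ⊆ bl x R := bl_mono x (by linarith)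
    have hy2 : bl x (R - dist x y) ⊆ bl y R := by
      intro z hz
      rw [mem_bl] at hz ⊢
      linarith [dist_triangle y x z, dist_comm y x]
    have h1 := avg_nested g hxR hx1 hosc
    have h2 := avg_nested g hyR hy1 hosc
    have h3 := ratio_le hxy hR.le
    have h4 : ((bl x (R - dist x y)).card : ℝ) / (bl x (R + dist x y)).card ≤
        (bl x R).card / (bl x (R + dist x y)).card :=
      div_le_div_of_nonneg_right (by exact_mod_cast card_le_card hx2) hPne.le
    have h5 : ((bl x (R - dist x y)).card : ℝ) / (bl x (R + dist x y)).card ≤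
        (bl y R).card / (bl x (R + dist x y)).card :=
      div_le_div_of_nonneg_right (by exact_mod_cast card_le_card hy2) hPne.le
    have h6 : ‖avg g (bl x R) - avg g (bl y R)‖ ≤
        ‖avg g (bl x R) - avg g (bl x (R + dist x y))‖ +
          ‖avg g (bl y R) - avg g (bl x (R + dist x y))‖ := by
      have := norm_sub_le (avg g (bl x R) - avg g (bl x (R + dist x y)))
        (avg g (bl y R) - avg g (bl x (R + dist x y)))
      simpa using this
    have h7 : 5 * R * (1 - (bl x R).card / (bl x (R + dist x y)).card) ≤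
        5 * R * (3 / 2 * (lb x (R + dist x y) - lb x (R - dist x y))) :=
      mul_le_mul_of_nonneg_left (by linarith) (by linarith)
    have h8 : 5 * R * (1 - (bl y R).card / (bl x (R + dist x y)).card) ≤
        5 * R * (3 / 2 * (lb x (R + dist x y) - lb x (R - dist x y))) :=
      mul_le_mul_of_nonneg_left (by linarith) (by linarith)
    have h9 : R * (15 * (lb x (R + dist x y) - lb x (R - dist x y))) =
        5 * R * (3 / 2 * (lb x (R + dist x y) - lb x (R - dist x y))) +
        5 * R * (3 / 2 * (lb x (R + dist x y) - lb x (R - dist x y))) := by ring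
    linarith
  · push Not at hRt
    rw [if_pos (haR.trans_lt hRt)]
    have h1 : ‖avg g (bl x R) - avg g (bl y R)‖ ≤ 4 * dist x y := by
      refine avg_sub_le g hxR _ fun z hz => ?_
      rw [norm_sub_rev]
      refine avg_sub_le g hyR _ fun z' hz' => ?_
      rw [mem_bl] at hz hz'
      have h1 := hg z' z
      have h2 := dist_triangle4 z' y x z
      have h3 := dist_comm z' y
      have h4 := dist_comm y x
      linarith
    linarith

/-- interval integrability of the averages -/
lemma avg_integrable (g : X → E) (x : X) {a b : ℝ} (ha : 0 < a) (hab : a ≤ b) :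
    IntervalIntegrable (fun R => R⁻¹ • avg g (bl x R)) volume a b := by
  classical
  rw [intervalIntegrable_iff_integrableOn_Ioc_of_le hab]
  have hm : ∀ z, Measurable (fun R : ℝ => if dist x z ≤ R then (1 : ℝ) else 0) := fun z =>
    Measurable.ite measurableSet_Ici measurable_const measurable_const
  have hcard : ∀ R : ℝ, ((bl x R).card : ℝ) = ∑ z, if dist x z ≤ R then (1 : ℝ) else 0 := by
    intro R
    rw [bl, card_eq_sum_ones, sum_filter]
    push_cast
    rfl
  have e : (fun R : ℝ => R⁻¹ • avg g (bl x R)) = fun R : ℝ => ∑ z,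
      (R⁻¹ * (∑ z', if dist x z' ≤ R then (1 : ℝ) else 0)⁻¹ *
        (if dist x z ≤ R then (1 : ℝ) else 0)) • g z := by
    funext R
    unfold avg
    rw [hcard, smul_smul, smul_sum, bl, sum_filter]
    refine sum_congr rfl fun z _ => ?_
    split_ifs <;> simp
  have hmeas : AEStronglyMeasurable (fun R : ℝ => R⁻¹ • avg g (bl x R)) volume := by
    rw [e]
    refine Finset.aestronglyMeasurable_fun_sum _ fun z _ => ?_
    refine AEStronglyMeasurable.smul_const ?_ _
    refine Measurable.aestronglyMeasurable ?_
    exact (measurable_inv.mul (Finset.measurable_fun_sum _ fun z' _ => hm z').inv).mul (hm z)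
  refine Measure.integrableOn_of_bounded (M := a⁻¹ * ∑ z, ‖g z‖) measure_Ioc_lt_top.ne
    hmeas ?_
  · refine (ae_restrict_iff' measurableSet_Ioc).2 (Filter.Eventually.of_forall fun R hR => ?_)
    rw [norm_smul, norm_inv, Real.norm_of_nonneg (ha.trans hR.1).le]
    refine mul_le_mul (inv_anti₀ ha hR.1.le) ?_ (norm_nonneg _) (inv_nonneg.2 ha.le)
    have hne : (bl x R).Nonempty := ⟨x, by rw [mem_bl, dist_self]; exact (ha.trans hR.1).le⟩
    have := avg_sub_le g hne 0 (M := ∑ z, ‖g z‖) (fun z _ => by
      rw [sub_zero]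
      exact single_le_sum (f := fun z => ‖g z‖) (fun z _ => norm_nonneg _) (mem_univ z))
    simpa using this

/-- the smoothed map -/
noncomputable def smooth (g : X → E) (a b : ℝ) (x : X) : E :=
  (log (b / a))⁻¹ • ∫ R in a..b, R⁻¹ • avg g (bl x R)

lemma smooth_sub (g : X → E) {a b : ℝ} (ha : 0 < a) (hab : a ≤ b) (x y : X) :
    smooth g a b x - smooth g a b y =
      (log (b / a))⁻¹ • ∫ R in a..b, R⁻¹ • (avg g (bl x R) - avg g (bl y R)) := by
  unfold smooth
  rw [← smul_sub, ← intervalIntegral.integral_sub (avg_integrable g x ha hab)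
    (avg_integrable g y ha hab)]
  simp_rw [smul_sub]

lemma inv_integrable {a b : ℝ} (ha : 0 < a) (hab : a ≤ b) :
    IntervalIntegrable (fun R : ℝ => R⁻¹) volume a b := by
  refine intervalIntegral.intervalIntegrable_inv (fun R hR => ?_) continuousOn_id
  rw [Set.uIcc_of_le hab] at hR
  exact (ha.trans_le hR.1).ne'

/-- crude bound -/
lemma smooth_sub_le (g : X → E) {a b M : ℝ} (ha : 0 < a) (hab : a < b)
    (h : ∀ z z', ‖g z - g z'‖ ≤ M) (x y : X) :
    ‖smooth g a b x - smooth g a b y‖ ≤ M := by
  have hl : 0 < log (b / a) := log_pos ((one_lt_div ha).2 hab)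
  rw [smooth_sub g ha hab.le, norm_smul, norm_inv, Real.norm_of_nonneg hl.le, inv_mul_le_iff₀ hl]
  have h1 := intervalIntegral.norm_integral_le_of_norm_le (μ := volume) hab.le
    (f := fun R => R⁻¹ • (avg g (bl x R) - avg g (bl y R))) (g := fun R => R⁻¹ * M)
    (Filter.Eventually.of_forall fun R hR => by
      have hR0 : 0 < R := ha.trans hR.1
      rw [norm_smul, norm_inv, Real.norm_of_nonneg hR0.le]
      refine mul_le_mul_of_nonneg_left ?_ (inv_nonneg.2 hR0.le)
      refine avg_sub_le g ⟨x, by rw [mem_bl, dist_self]; exact hR0.le⟩ _ fun z _ => ?_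
      rw [norm_sub_rev]
      exact avg_sub_le g ⟨y, by rw [mem_bl, dist_self]; exact hR0.le⟩ _ fun z' _ => h z' z)
    ((inv_integrable ha hab.le).mul_const M)
  refine h1.trans ?_
  rw [intervalIntegral.integral_mul_const, integral_inv_of_pos ha (ha.trans hab)]

/-- the smoothed map is close to the original map -/
lemma smooth_sub_self_le [CompleteSpace E] (g : X → E) {a b r : ℝ} (ha : 0 < a) (hab : a < b)
    (h : ∀ z z', ‖g z - g z'‖ ≤ dist z z' + r) (x : X) :
    ‖smooth g a b x - g x‖ ≤ b + r := by
  have hl : 0 < log (b / a) := log_pos ((one_lt_div ha).2 hab)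
  have e1 : ∫ R in a..b, R⁻¹ • g x = log (b / a) • g x := by
    rw [intervalIntegral.integral_smul_const, integral_inv_of_pos ha (ha.trans hab)]
  have e : smooth g a b x - g x =
      (log (b / a))⁻¹ • ∫ R in a..b, R⁻¹ • (avg g (bl x R) - g x) := by
    have e2 : g x = (log (b / a))⁻¹ • ∫ R in a..b, R⁻¹ • g x := by
      rw [e1, smul_smul, inv_mul_cancel₀ hl.ne', one_smul]
    conv_lhs => rw [e2]
    unfold smooth
    rw [← smul_sub, ← intervalIntegral.integral_sub (avg_integrable g x ha hab.le)
      ⟨(inv_integrable ha hab.le).1.smul_const (g x), (inv_integrable ha hab.le).2.smul_const (g x)⟩]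
    simp_rw [smul_sub]
  rw [e, norm_smul, norm_inv, Real.norm_of_nonneg hl.le, inv_mul_le_iff₀ hl]
  have h1 := intervalIntegral.norm_integral_le_of_norm_le (μ := volume) hab.le
    (f := fun R => R⁻¹ • (avg g (bl x R) - g x)) (g := fun R => R⁻¹ * (b + r))
    (Filter.Eventually.of_forall fun R hR => by
      have hR0 : 0 < R := ha.trans hR.1
      rw [norm_smul, norm_inv, Real.norm_of_nonneg hR0.le]
      refine mul_le_mul_of_nonneg_left ?_ (inv_nonneg.2 hR0.le)
      refine avg_sub_le g ⟨x, by rw [mem_bl, dist_self]; exact hR0.le⟩ _ fun z hz => ?_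
      rw [mem_bl, dist_comm] at hz
      linarith [h z x, hR.2])
    ((inv_integrable ha hab.le).mul_const _)
  refine h1.trans ?_
  rw [intervalIntegral.integral_mul_const, integral_inv_of_pos ha (ha.trans hab)]

lemma lb_intervalIntegrable (x : X) (a b : ℝ) : IntervalIntegrable (lb x) volume a b :=
  (lb_mono x).intervalIntegrable

lemma integral_lb_le (x : X) {a b t : ℝ} (ht : 0 ≤ t) :
    ∫ R in a..b, (lb x (R + t) - lb x (R - t)) ≤ 2 * t * (lb x (b + t) - lb x (a - t)) := by
  have i1 : IntervalIntegrable (fun R => lb x (R + t)) volume a b := by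
    refine Monotone.intervalIntegrable fun R R' h => lb_mono x (by linarith)
  have i2 : IntervalIntegrable (fun R => lb x (R - t)) volume a b := by
    refine Monotone.intervalIntegrable fun R R' h => lb_mono x (by linarith)
  rw [intervalIntegral.integral_sub i1 i2, intervalIntegral.integral_comp_add_right,
    intervalIntegral.integral_comp_sub_right]
  have e1 : (∫ R in (a + t)..(b + t), lb x R) - ∫ R in (a - t)..(b - t), lb x R =
      (∫ R in (b - t)..(b + t), lb x R) - ∫ R in (a - t)..(a + t), lb x R := by
    have h1 := intervalIntegral.integral_add_adjacent_intervals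
      (lb_intervalIntegrable x (a - t) (a + t)) (lb_intervalIntegrable x (a + t) (b + t))
    have h2 := intervalIntegral.integral_add_adjacent_intervals
      (lb_intervalIntegrable x (a - t) (b - t)) (lb_intervalIntegrable x (b - t) (b + t))
    linarith
  rw [e1]
  have h3 : ∫ R in (b - t)..(b + t), lb x R ≤ 2 * t * lb x (b + t) := by
    have := intervalIntegral.integral_mono_on (μ := volume) (show b - t ≤ b + t by linarith)
      (lb_intervalIntegrable x _ _) (intervalIntegrable_const (c := lb x (b + t)))
      (fun R hR => lb_mono x hR.2)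
    refine this.trans ?_
    rw [intervalIntegral.integral_const, smul_eq_mul]
    apply le_of_eq
    ring
  have h4 : 2 * t * lb x (a - t) ≤ ∫ R in (a - t)..(a + t), lb x R := by
    have := intervalIntegral.integral_mono_on (μ := volume) (show a - t ≤ a + t by linarith)
      (intervalIntegrable_const (c := lb x (a - t))) (lb_intervalIntegrable x _ _)
      (fun R hR => lb_mono x hR.1)
    refine le_trans ?_ this
    rw [intervalIntegral.integral_const, smul_eq_mul]
    apply le_of_eq
    ring
  linarith

/-- main smoothing estimate -/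
lemma smooth_lip (g : X → E) {a b r : ℝ} (ha : 0 < a) (hab : a < b) (hra : r ≤ a)
    (hg : ∀ z z', ‖g z - g z'‖ ≤ dist z z' + r) {x y : X} (hxy : x ≠ y) :
    ‖smooth g a b x - smooth g a b y‖ ≤
      30 * dist x y / log (b / a) * (lb x (b + dist x y) - lb x (a - dist x y)) +
        (if a < dist x y then 4 * dist x y else 0) := by
  have hl : 0 < log (b / a) := log_pos ((one_lt_div ha).2 hab)
  have ht : 0 < dist x y := dist_pos.2 hxy
  set t := dist x y with htdef
  set c := (if a < t then 4 * t else 0) with hc
  rw [smooth_sub g ha hab.le, norm_smul, norm_inv, Real.norm_of_nonneg hl.le, inv_mul_le_iff₀ hl]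
  have i1 : IntervalIntegrable (fun R => lb x (R + t)) volume a b := by
    refine Monotone.intervalIntegrable fun R R' h => lb_mono x (by linarith)
  have i2 : IntervalIntegrable (fun R => lb x (R - t)) volume a b := by
    refine Monotone.intervalIntegrable fun R R' h => lb_mono x (by linarith)
  have h1 := intervalIntegral.norm_integral_le_of_norm_le (μ := volume) hab.le
    (f := fun R => R⁻¹ • (avg g (bl x R) - avg g (bl y R)))
    (g := fun R => 15 * (lb x (R + t) - lb x (R - t)) + R⁻¹ * c)
    (Filter.Eventually.of_forall fun R hR => by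
      have hR0 : 0 < R := ha.trans hR.1
      rw [norm_smul, norm_inv, Real.norm_of_nonneg hR0.le, inv_mul_le_iff₀ hR0]
      have h2 := avg_ball_sub g ha hra hR.1.le hg hxy
      refine h2.trans (le_of_eq ?_)
      rw [mul_add, ← mul_assoc R R⁻¹ c, mul_inv_cancel₀ hR0.ne', one_mul])
    (((i1.sub i2).const_mul 15).add ((inv_integrable ha hab.le).mul_const _))
  refine h1.trans ?_
  rw [intervalIntegral.integral_add ((i1.sub i2).const_mul 15)
    ((inv_integrable ha hab.le).mul_const _), intervalIntegral.integral_const_mul,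
    intervalIntegral.integral_mul_const, integral_inv_of_pos ha (ha.trans hab)]
  have h3 := integral_lb_le x (a := a) (b := b) ht.le
  have h4 : log (b / a) * (30 * t / log (b / a) * (lb x (b + t) - lb x (a - t)) + c) =
      15 * (2 * t * (lb x (b + t) - lb x (a - t))) + log (b / a) * c := by
    field_simp
    ring
  rw [h4]
  linarith

end Pool.Agent.Helper75.DR
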